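import Pool.Agent.Work.MP_4ee3e3_lc.Engine

/-!
# Basic arithmetic in a model: the ordered semiring axioms
-/

set_option autoImplicit false
set_option linter.unusedSectionVars false

namespace Pool.Agent.Work.MP_4ee3e3_lc

universe u

section

variable {M : Type u} [Zero M] [One M] [Add M] [Mul M] [LT M] {S : Set (Set M)}

namespace IsModelATR0

variable (H : IsModelATR0 S)
include H

theorem zero_add' (n : M) : 0 + n = n := by
  revert n
  apply H.ind (fun n => 0 + n = n)
  · exact H.add_zero 0
  · intro n ih
    rw [H.add_succ, ih]

theorem succ_add' (m n : M) : (m + 1) + n = (m + n) + 1 := by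
  revert n
  apply H.ind (fun n => (m + 1) + n = (m + n) + 1)
  · rw [H.add_zero, H.add_zero]
  · intro n ih
    rw [H.add_succ, ih, H.add_succ]

theorem add_comm' (m n : M) : m + n = n + m := by
  revert n
  apply H.ind (fun n => m + n = n + m)
  · rw [H.add_zero, H.zero_add']
  · intro n ih
    rw [H.add_succ, ih, H.succ_add']

theorem add_assoc' (a b c : M) : (a + b) + c = a + (b + c) := by
  revert c
  apply H.ind (fun c => (a + b) + c = a + (b + c))
  · rw [H.add_zero, H.add_zero]
  · intro n ih
    rw [H.add_succ, ih, H.add_succ, H.add_succ]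

theorem zero_mul' (n : M) : 0 * n = 0 := by
  revert n
  apply H.ind (fun n => 0 * n = 0)
  · exact H.mul_zero 0
  · intro n ih
    rw [H.mul_succ, ih, H.add_zero]

theorem add_right_comm' (a b c : M) : (a + b) + c = (a + c) + b := by
  rw [H.add_assoc', H.add_comm' b c, ← H.add_assoc']

theorem succ_mul' (m n : M) : (m + 1) * n = m * n + n := by
  revert n
  apply H.ind (fun n => (m + 1) * n = m * n + n)
  · rw [H.mul_zero, H.mul_zero, H.add_zero]
  · intro n ih
    calc (m + 1) * (n + 1) = (m + 1) * n + (m + 1) := H.mul_succ _ _
      _ = (m * n + n) + (m + 1) := by rw [ih]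
      _ = ((m * n + n) + m) + 1 := H.add_succ _ _
      _ = ((m * n + m) + n) + 1 := by rw [H.add_right_comm' (m * n) n m]
      _ = (m * n + m) + (n + 1) := (H.add_succ _ _).symm
      _ = m * (n + 1) + (n + 1) := by rw [H.mul_succ]

theorem mul_comm' (m n : M) : m * n = n * m := by
  revert n
  apply H.ind (fun n => m * n = n * m)
  · rw [H.mul_zero, H.zero_mul']
  · intro n ih
    rw [H.mul_succ, ih, H.succ_mul']

theorem mul_add' (a b c : M) : a * (b + c) = a * b + a * c := by
  revert c
  apply H.ind (fun c => a * (b + c) = a * b + a * c)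
  · rw [H.add_zero, H.mul_zero, H.add_zero]
  · intro n ih
    rw [H.add_succ, H.mul_succ, ih, H.mul_succ, H.add_assoc']

theorem mul_assoc' (a b c : M) : (a * b) * c = a * (b * c) := by
  revert c
  apply H.ind (fun c => (a * b) * c = a * (b * c))
  · rw [H.mul_zero, H.mul_zero, H.mul_zero]
  · intro n ih
    rw [H.mul_succ, ih, H.mul_succ, H.mul_add']

theorem mul_one' (n : M) : n * 1 = n := by
  have h : (1 : M) = 0 + 1 := (H.zero_add' 1).symm
  rw [h, H.mul_succ, H.mul_zero, H.zero_add']

theorem lt_trans' {a b c : M} (hab : a < b) : b < c → a < c := by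
  revert c
  apply H.ind (fun c => b < c → a < c)
  · intro h
    exact absurd h (H.not_lt_zero b)
  · intro n ih h
    rw [H.lt_succ] at h ⊢
    rcases h with h | h
    · exact Or.inl (ih h)
    · subst h
      exact Or.inl hab

theorem lt_succ_self' (n : M) : n < n + 1 := (H.lt_succ n n).2 (Or.inr rfl)

theorem lt_irrefl' (n : M) : ¬ n < n := by
  revert n
  apply H.ind (fun n => ¬ n < n)
  · exact H.not_lt_zero 0
  · intro n ih h
    rw [H.lt_succ] at h
    rcases h with h | h
    · exact ih (H.lt_trans' (H.lt_succ_self' n) h)
    · have := H.lt_succ_self' n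
      rw [h] at this
      exact ih this

theorem zero_or_pos' (n : M) : n = 0 ∨ 0 < n := by
  revert n
  apply H.ind (fun n => n = 0 ∨ 0 < n)
  · exact Or.inl rfl
  · intro n ih
    right
    rw [H.lt_succ]
    rcases ih with h | h
    · exact Or.inr h.symm
    · exact Or.inl h

theorem succ_le' {b a : M} : b < a → b + 1 < a ∨ b + 1 = a := by
  revert a
  apply H.ind (fun a => b < a → b + 1 < a ∨ b + 1 = a)
  · intro h
    exact absurd h (H.not_lt_zero b)
  · intro n ih h
    rw [H.lt_succ] at h
    rcases h with h | h
    · rcases ih h with h | h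
      · exact Or.inl (H.lt_trans' h (H.lt_succ_self' n))
      · left
        rw [h]
        exact H.lt_succ_self' n
    · right
      rw [h]

theorem trichotomy' (a b : M) : a < b ∨ a = b ∨ b < a := by
  revert b
  apply H.ind (fun b => a < b ∨ a = b ∨ b < a)
  · rcases H.zero_or_pos' a with h | h
    · exact Or.inr (Or.inl h)
    · exact Or.inr (Or.inr h)
  · intro n ih
    rcases ih with h | h | h
    · exact Or.inl ((H.lt_succ a n).2 (Or.inl h))
    · exact Or.inl ((H.lt_succ a n).2 (Or.inr h))
    · rcases H.succ_le' h with h | h
      · exact Or.inr (Or.inr h)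
      · exact Or.inr (Or.inl h.symm)

theorem succ_lt_succ' {a b : M} (h : a < b) : a + 1 < b + 1 := by
  rw [H.lt_succ]
  exact H.succ_le' h

theorem add_lt_add_right' {a b : M} (h : a < b) (c : M) : a + c < b + c := by
  revert c
  apply H.ind (fun c => a + c < b + c)
  · rw [H.add_zero, H.add_zero]
    exact h
  · intro n ih
    rw [H.add_succ, H.add_succ]
    exact H.succ_lt_succ' ih

theorem add_lt_add_left' {a b : M} (h : a < b) (c : M) : c + a < c + b := by
  rw [H.add_comm' c a, H.add_comm' c b]
  exact H.add_lt_add_right' h c

theorem mul_lt_mul_right' {a b : M} (h : a < b) (c : M) : 0 < c → a * c < b * c := by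
  revert c
  apply H.ind (fun c => 0 < c → a * c < b * c)
  · intro h0
    exact absurd h0 (H.not_lt_zero 0)
  · intro n ih _
    rw [H.mul_succ, H.mul_succ]
    rcases H.zero_or_pos' n with hn | hn
    · subst hn
      rw [H.mul_zero, H.mul_zero, H.zero_add', H.zero_add']
      exact h
    · exact H.lt_trans' (H.add_lt_add_right' (ih hn) a) (H.add_lt_add_left' h _)

end IsModelATR0

/-- The commutative semiring structure of a model. -/
@[reducible] def csr (H : IsModelATR0 S) : CommSemiring M :=
  { (inferInstance : Zero M), (inferInstance : One M), (inferInstance : Add M),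
    (inferInstance : Mul M) with
    add_assoc := H.add_assoc'
    zero_add := H.zero_add'
    add_zero := H.add_zero
    add_comm := H.add_comm'
    mul_assoc := H.mul_assoc'
    one_mul := fun n => by rw [H.mul_comm', H.mul_one']
    mul_one := H.mul_one'
    left_distrib := H.mul_add'
    right_distrib := fun a b c => by
      rw [H.mul_comm', H.mul_add', H.mul_comm' c a, H.mul_comm' c b]
    zero_mul := H.zero_mul'
    mul_zero := H.mul_zero
    mul_comm := H.mul_comm'
    nsmul := @nsmulRec M _ _
    npow := @npowRec M _ _ }

open Classical in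
/-- The linear order of a model. -/
@[reducible] noncomputable def lo (H : IsModelATR0 S) : LinearOrder M :=
  { (inferInstance : LT M) with
    le := fun a b => a < b ∨ a = b
    le_refl := fun a => Or.inr rfl
    le_trans := fun a b c h1 h2 => by
      rcases h1 with h1 | h1
      · rcases h2 with h2 | h2
        · exact Or.inl (H.lt_trans' h1 h2)
        · subst h2
          exact Or.inl h1
      · subst h1
        exact h2
    lt_iff_le_not_ge := fun a b => by
      constructor
      · intro h
        refine ⟨Or.inl h, ?_⟩
        rintro (h' | h')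
        · exact H.lt_irrefl' a (H.lt_trans' h h')
        · subst h'
          exact H.lt_irrefl' _ h
      · rintro ⟨h | h, h'⟩
        · exact h
        · exact absurd (Or.inr h.symm) h'
    le_antisymm := fun a b h1 h2 => by
      rcases h1 with h1 | h1
      · rcases h2 with h2 | h2
        · exact absurd (H.lt_trans' h1 h2) (H.lt_irrefl' a)
        · exact h2.symm
      · exact h1
    le_total := fun a b => by
      rcases H.trichotomy' a b with h | h | h
      · exact Or.inl (Or.inl h)
      · exact Or.inl (Or.inr h)
      · exact Or.inr (Or.inl h)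
    toDecidableLE := fun a b => Classical.propDecidable _
    toDecidableEq := fun a b => Classical.propDecidable _
    toDecidableLT := fun a b => Classical.propDecidable _ }

theorem isor (H : IsModelATR0 S) :
    @IsStrictOrderedRing M (csr H).toSemiring (lo H).toPartialOrder := by
  let _ := csr H
  let _ := lo H
  refine { add_le_add_left := ?_, le_of_add_le_add_left := ?_, zero_le_one := ?_,
           exists_pair_ne := ⟨0, 1, ?_⟩, mul_lt_mul_of_pos_left := ?_,
           mul_lt_mul_of_pos_right := ?_ }
  · intro a b h c
    rcases h with h | h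
    · exact Or.inl (H.add_lt_add_right' h c)
    · subst h
      exact Or.inr rfl
  · intro a b c h
    by_contra hcon
    rcases H.trichotomy' b c with h' | h' | h'
    · exact hcon (Or.inl h')
    · exact hcon (Or.inr h')
    · have h2 : a + c < a + b := H.add_lt_add_left' h' a
      rcases h with h | h
      · exact H.lt_irrefl' _ (H.lt_trans' h h2)
      · have h3 : a + c < a + b := h2
        rw [h] at h3
        exact H.lt_irrefl' _ h3
  · left
    have h1 : (1 : M) = 0 + 1 := (H.zero_add' 1).symm
    show (0 : M) < 1
    rw [h1]
    exact H.lt_succ_self' 0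
  · intro h
    have h1 : (0 : M) + 1 = 0 := by
      rw [H.zero_add']
      exact h.symm
    exact H.succ_ne_zero 0 h1
  · intro a ha b c hbc
    show a * b < a * c
    rw [H.mul_comm' a b, H.mul_comm' a c]
    exact H.mul_lt_mul_right' hbc a ha
  · intro a ha b c hbc
    exact H.mul_lt_mul_right' hbc a ha

end

end Pool.Agent.Work.MP_4ee3e3_lc
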