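import Pool.Agent.Work.MP_4ee3e3_lc.Arithmetic

/-!
# Pairs, least elements, definable sets and recursion in a model
-/

set_option autoImplicit false
set_option linter.unusedSectionVars false

namespace Pool.Agent.Work.MP_4ee3e3_lc

universe u

section raw

variable {M : Type u} [Zero M] [One M] [Add M] [Mul M] [LT M] {S : Set (Set M)}

instance tf_val (t : Tm M) : Tf (M := M) (fun c => t.val c.n) := ⟨t, fun _ => rfl⟩

theorem push_eta (v : ℕ → M) : push (v 0) (fun i => v (i + 1)) = v := by
  funext i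
  cases i <;> rfl

theorem Ar.substZ {T : Set M → Set M} (hT : Ar S (fun c => c.n 0 ∈ T c.Z)) {R : Ctx M → Prop}
    (hR : Ar S R) : Ar S (fun c => R ⟨c.n, T c.Z⟩) := by
  obtain ⟨φ, h1, h2⟩ := hR.out
  have key : ∀ φ : Arith M, φ.ParamsIn S → Ar S (fun c => φ.Sat (T c.Z) c.n) := by
    intro φ
    induction φ with
    | eq s t =>
      intro _
      exact inferInstanceAs (Ar S (fun c => s.val c.n = t.val c.n))
    | lt s t =>
      intro _
      exact inferInstanceAs (Ar S (fun c => s.val c.n < t.val c.n))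
    | mem t X =>
      intro h
      exact inferInstanceAs (Ar S (fun c => t.val c.n ∈ (⟨X, h⟩ : ↥S).1))
    | memZ t =>
      intro _
      exact Ar.comp1 (R := fun a Z => a ∈ T Z) hT (fun c => t.val c.n)
    | neg φ ih =>
      intro h
      have := ih h
      exact inferInstanceAs (Ar S (fun c => ¬ φ.Sat (T c.Z) c.n))
    | and φ ψ ih1 ih2 =>
      intro h
      have := ih1 h.1
      have := ih2 h.2
      exact inferInstanceAs (Ar S (fun c => φ.Sat (T c.Z) c.n ∧ ψ.Sat (T c.Z) c.n))
    | all φ ih =>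
      intro h
      have h1 : Ar S (fun c => φ.Sat (T c.Z) (push (c.n 0) (fun i => c.n (i + 1)))) := by
        simp only [push_eta]
        exact ih h
      exact @ar_all M _ _ _ _ _ S (fun a c => φ.Sat (T c.Z) (push a c.n)) h1
  exact (key φ h1).congr fun c => (h2 ⟨c.n, T c.Z⟩).symm

instance ar_Fld (X : ↥S) (f : Ctx M → M) [Tf f] : Ar S (fun c => Fld X.1 (f c)) := by
  unfold Fld
  infer_instance

instance ar_LtIn (X : ↥S) (f g : Ctx M → M) [Tf f] [Tf g] :
    Ar S (fun c => LtIn X.1 (f c) (g c)) := by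
  unfold LtIn
  infer_instance

/-- a definable set as an element of `S` -/
def mk1 (H : IsModelATR0 S) (R : M → Prop) [hR : Ar S (fun c => R (c.n 0))] : ↥S :=
  ⟨{x | R x}, Ar.mem_setOf H hR⟩

theorem mem_mk1 (H : IsModelATR0 S) (R : M → Prop) [hR : Ar S (fun c => R (c.n 0))] (x : M) :
    x ∈ (mk1 H R).1 ↔ R x := Iff.rfl

end raw

section

variable {M : Type u} [CommSemiring M] [LinearOrder M] [IsStrictOrderedRing M] {S : Set (Set M)}

instance ar_le (f g : Ctx M → M) [hf : Tf f] [hg : Tf g] : Ar S (fun c => f c ≤ g c) := by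
  have h : Ar S (fun c => ¬ (g c < f c)) := by infer_instance
  exact h.congr fun c => not_lt

theorem IsModelATR0.zero_le (H : IsModelATR0 S) (a : M) : 0 ≤ a := not_lt.1 (H.not_lt_zero a)

theorem IsModelATR0.lt_succ_iff (H : IsModelATR0 S) (a b : M) : a < b + 1 ↔ a ≤ b := by
  rw [H.lt_succ, le_iff_lt_or_eq]

theorem IsModelATR0.succ_le_iff (H : IsModelATR0 S) (a b : M) : a + 1 ≤ b ↔ a < b := by
  rw [← not_lt, H.lt_succ_iff, not_le]

theorem IsModelATR0.zero_or_succ (H : IsModelATR0 S) (a : M) : a = 0 ∨ ∃ b, a = b + 1 := by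
  revert a
  apply H.ind (fun a => a = 0 ∨ ∃ b, a = b + 1)
  · exact Or.inl rfl
  · intro n _
    exact Or.inr ⟨n, rfl⟩

theorem IsModelATR0.le_self_mul (H : IsModelATR0 S) (a : M) : a ≤ a * a := by
  rcases H.zero_or_succ a with rfl | ⟨b, rfl⟩
  · exact H.zero_le _
  · have h : (b + 1) * 1 ≤ (b + 1) * (b + 1) := by
      apply mul_le_mul_of_nonneg_left
      · have := add_le_add_left (H.zero_le b) 1
        rwa [zero_add] at this
      · exact H.zero_le _
    rwa [mul_one] at h

theorem IsModelATR0.le_add_left' (H : IsModelATR0 S) (a b : M) : a ≤ b + a := by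
  have := add_le_add_left (H.zero_le b) a
  rwa [zero_add] at this

theorem IsModelATR0.le_add_right' (H : IsModelATR0 S) (a b : M) : a ≤ a + b := by
  rw [add_comm]
  exact H.le_add_left' a b

theorem IsModelATR0.le_pair_left (H : IsModelATR0 S) (a b : M) : a ≤ pair a b :=
  H.le_add_left' _ _

theorem IsModelATR0.le_pair_right (H : IsModelATR0 S) (a b : M) : b ≤ pair a b := by
  unfold pair
  calc b ≤ a + b := H.le_add_left' _ _
    _ ≤ (a + b) * (a + b) := H.le_self_mul _
    _ ≤ _ := H.le_add_right' _ _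

theorem IsModelATR0.pair_aux (H : IsModelATR0 S) {a b c d : M} (h : a + b < c + d) :
    pair a b < pair c d := by
  unfold pair
  have h1 : a + b + 1 ≤ c + d := (H.succ_le_iff _ _).2 h
  have h2 : (a + b + 1) * (a + b + 1) ≤ (c + d) * (c + d) :=
    mul_le_mul h1 h1 (H.zero_le _) (H.zero_le _)
  calc (a + b) * (a + b) + a ≤ (a + b) * (a + b) + (a + b) := by
        have := add_le_add_left (H.le_add_right' a b) ((a + b) * (a + b))
        rwa [add_comm a, add_comm (a + b)] at this
    _ < (a + b) * (a + b) + (a + b) + (a + b) + 1 := by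
        rw [H.lt_succ_iff]
        exact H.le_add_right' _ _
    _ = (a + b + 1) * (a + b + 1) := by ring
    _ ≤ (c + d) * (c + d) := h2
    _ ≤ _ := H.le_add_right' _ _

theorem IsModelATR0.pair_inj (H : IsModelATR0 S) {a b c d : M} :
    pair a b = pair c d ↔ a = c ∧ b = d := by
  constructor
  · intro h
    have hs : a + b = c + d := by
      rcases lt_trichotomy (a + b) (c + d) with h' | h' | h'
      · exact absurd h (ne_of_lt (H.pair_aux h'))
      · exact h'
      · exact absurd h.symm (ne_of_lt (H.pair_aux h'))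
    unfold pair at h
    rw [hs] at h
    have hac : a = c := add_left_cancel h
    subst hac
    exact ⟨rfl, add_left_cancel hs⟩
  · rintro ⟨rfl, rfl⟩
    rfl

/-- a definable binary relation as an element of `S` -/
def mk2 (H : IsModelATR0 S) (R : M → M → Prop) [hR : Ar S (fun c => R (c.n 0) (c.n 1))] : ↥S :=
  ⟨{z | ∃ b, ∃ a, z = pair a b ∧ R a b}, Ar.mem_setOf H (by infer_instance)⟩

theorem mem_mk2 (H : IsModelATR0 S) (R : M → M → Prop) [hR : Ar S (fun c => R (c.n 0) (c.n 1))]
    (a b : M) : pair a b ∈ (mk2 H R).1 ↔ R a b := by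
  constructor
  · rintro ⟨b', a', h, hR⟩
    rw [H.pair_inj] at h
    obtain ⟨rfl, rfl⟩ := h
    exact hR
  · intro h
    exact ⟨b, a, rfl, h⟩

/-- strong induction -/
theorem IsModelATR0.sind (H : IsModelATR0 S) (R : M → Prop) [hR : Ar S (fun c => R (c.n 0))]
    (hs : ∀ n, (∀ m, m < n → R m) → R n) : ∀ n, R n := by
  have key : ∀ n, ∀ m, m < n → R m := by
    have hR' : Ar S (fun c => R (c.n 0)) := hR
    have : Ar S (fun c => R ((⟨fun i => c.n (i + 1), c.Z⟩ : Ctx M).n 0)) := by
      exact Ar.comp1 (R := fun a _ => R a) hR' (fun c => c.n 1)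
    apply H.ind (fun n => ∀ m, m < n → R m)
    · intro m hm
      exact absurd hm (H.not_lt_zero m)
    · intro n ih m hm
      rw [H.lt_succ] at hm
      rcases hm with hm | rfl
      · exact ih m hm
      · exact hs m ih
  intro n
  exact key (n + 1) n ((H.lt_succ_iff n n).2 le_rfl)

/-- least element principle -/
theorem IsModelATR0.least (H : IsModelATR0 S) (R : M → Prop) [hR : Ar S (fun c => R (c.n 0))]
    (h : ∃ n, R n) : ∃ n, R n ∧ ∀ m, R m → n ≤ m := by
  by_contra hcon
  obtain ⟨n, hn⟩ := h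
  have key : ∀ n, ¬ R n := by
    apply H.sind (fun n => ¬ R n)
    intro n ih hn
    apply hcon
    refine ⟨n, hn, fun m hm => ?_⟩
    by_contra hlt
    exact ih m (not_le.1 hlt) hm
  exact key n hn

end

end Pool.Agent.Work.MP_4ee3e3_lc
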