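import Mathlib

/-!
# Models of ATR_0 and the extendibility of eta

Structures for the language of second-order arithmetic are given by a type `M` of numbers with
`0, 1, +, *, <` and a family `S : Set (Set M)` of subsets of `M`, over which the set quantifiers
range (Henkin structures; nonstandard `M` and arbitrary `S` are allowed).
-/

set_option autoImplicit false

namespace Pool.Agent.Work.MP_4ee3e3_lc

universe u

/-! ## Arithmetical formulas with parameters -/

/-- Number terms with parameters from `M`. `var i` is the `i`-th number variable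
(de Bruijn indices). -/
inductive Tm (M : Type u) : Type u
  | var : ℕ → Tm M
  | param : M → Tm M
  | zero : Tm M
  | one : Tm M
  | add : Tm M → Tm M → Tm M
  | mul : Tm M → Tm M → Tm M

/-- Arithmetical formulas (no set quantifiers), with number parameters (inside terms) and set
parameters (`mem t X` is the formula `t ∈ X` for the parameter `X`) and with one free set
variable `Z` (`memZ t` is the formula `t ∈ Z`). In `all φ` the quantified number variable is
`var 0`, and the other variables of `φ` are shifted by one. -/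
inductive Arith (M : Type u) : Type u
  | eq : Tm M → Tm M → Arith M
  | lt : Tm M → Tm M → Arith M
  | mem : Tm M → Set M → Arith M
  | memZ : Tm M → Arith M
  | neg : Arith M → Arith M
  | and : Arith M → Arith M → Arith M
  | all : Arith M → Arith M

/-- All set parameters of the formula belong to `S`. -/
def Arith.ParamsIn {M : Type u} (S : Set (Set M)) : Arith M → Prop
  | .eq _ _ => True
  | .lt _ _ => True
  | .mem _ X => X ∈ S
  | .memZ _ => True
  | .neg φ => φ.ParamsIn S
  | .and φ ψ => φ.ParamsIn S ∧ ψ.ParamsIn S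
  | .all φ => φ.ParamsIn S

/-- Extend an assignment of the number variables: `a` for variable `0`, the old values shifted. -/
def push {M : Type u} (a : M) (v : ℕ → M) : ℕ → M
  | 0 => a
  | i + 1 => v i

variable {M : Type u} [Zero M] [One M] [Add M] [Mul M] [LT M]

/-- Value of a term. -/
def Tm.val (v : ℕ → M) : Tm M → M
  | .var i => v i
  | .param a => a
  | .zero => 0
  | .one => 1
  | .add s t => s.val v + t.val v
  | .mul s t => s.val v * t.val v

/-- Satisfaction of an arithmetical formula, with the free set variable interpreted by `Z`. -/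
def Arith.Sat (Z : Set M) : Arith M → (ℕ → M) → Prop
  | .eq s t, v => s.val v = t.val v
  | .lt s t, v => s.val v < t.val v
  | .mem t X, v => t.val v ∈ X
  | .memZ t, v => t.val v ∈ Z
  | .neg φ, v => ¬ φ.Sat Z v
  | .and φ ψ, v => φ.Sat Z v ∧ ψ.Sat Z v
  | .all φ, v => ∀ a : M, φ.Sat Z (push a v)

/-! ## Coded orders -/

/-- The pairing function `(m, n) = (m + n)^2 + m` (Simpson). -/
def pair (m n : M) : M := (m + n) * (m + n) + m

/-- `i` is in the field of the reflexive relation coded by `X`. -/
def Fld (X : Set M) (i : M) : Prop := pair i i ∈ X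

/-- `i <_X j` -/
def LtIn (X : Set M) (i j : M) : Prop := pair i j ∈ X ∧ pair j i ∉ X

/-- `X` codes a (reflexive) linear order on its field. -/
def IsLO (X : Set M) : Prop :=
  (∀ i j, pair i j ∈ X → Fld X i ∧ Fld X j) ∧
  (∀ i j k, pair i j ∈ X → pair j k ∈ X → pair i k ∈ X) ∧
  (∀ i j, pair i j ∈ X → pair j i ∈ X → i = j) ∧
  (∀ i j, Fld X i → Fld X j → pair i j ∈ X ∨ pair j i ∈ X)

/-- `X` codes a well-order in the structure with second-order part `S`: a linear order without
an infinite descending sequence coded in `S`. -/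
def IsWO (S : Set (Set M)) (X : Set M) : Prop :=
  IsLO X ∧ ¬ ∃ F ∈ S, (∀ n : M, ∃! m, pair n m ∈ F) ∧
    ∀ n a b : M, pair n a ∈ F → pair (n + 1) b ∈ F → LtIn X b a

/-- `Y^j`: the part of `Y` below `j` with respect to the order coded by `X`. -/
def below (X Y : Set M) (j : M) : Set M := {z | ∃ m i, z = pair m i ∧ LtIn X i j ∧ pair m i ∈ Y}

/-- The Henkin structure `(M, S, 0, 1, +, *, <)` is a model of `ATR_0`. -/
structure IsModelATR0 (S : Set (Set M)) : Prop where
  succ_ne_zero : ∀ n : M, n + 1 ≠ 0
  succ_inj : ∀ m n : M, m + 1 = n + 1 → m = n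
  add_zero : ∀ m : M, m + 0 = m
  add_succ : ∀ m n : M, m + (n + 1) = (m + n) + 1
  mul_zero : ∀ m : M, m * 0 = 0
  mul_succ : ∀ m n : M, m * (n + 1) = m * n + m
  not_lt_zero : ∀ m : M, ¬ m < 0
  lt_succ : ∀ m n : M, m < n + 1 ↔ (m < n ∨ m = n)
  /-- induction axiom -/
  induction : ∀ X ∈ S, (0 : M) ∈ X → (∀ n, n ∈ X → n + 1 ∈ X) → ∀ n, n ∈ X
  /-- arithmetical comprehension (sets of the structure enter as parameters; the free set variable
  `Z`, not needed here, is interpreted by the empty set) -/
  comprehension : ∀ φ : Arith M, φ.ParamsIn S → ∀ v : ℕ → M, {n | φ.Sat ∅ (push n v)} ∈ S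
  /-- arithmetical transfinite recursion: for every arithmetical `θ(n, Z)` and every well-order
  `X` there is `Y = {(n, j) : j ∈ field X ∧ θ(n, Y^j)}` -/
  transfinite_recursion : ∀ θ : Arith M, θ.ParamsIn S → ∀ v : ℕ → M, ∀ X ∈ S, IsWO S X →
    ∃ Y ∈ S, ∀ z, z ∈ Y ↔ ∃ n j, z = pair n j ∧ Fld X j ∧ θ.Sat (below X Y j) (push n v)

/-- `(P, R)` is a partial order (`R` codes the non-strict order on `P`). -/
def IsPO (P R : Set M) : Prop :=
  (∀ x y, pair x y ∈ R → x ∈ P ∧ y ∈ P) ∧
  (∀ x, x ∈ P → pair x x ∈ R) ∧
  (∀ x y z, pair x y ∈ R → pair y z ∈ R → pair x z ∈ R) ∧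
  (∀ x y, pair x y ∈ R → pair y x ∈ R → x = y)

/-- `L` codes a linearization of the partial order `(P, R)`. -/
def IsLinearization (P R L : Set M) : Prop :=
  IsPO P L ∧ (∀ x y, x ∈ P → y ∈ P → pair x y ∈ L ∨ pair y x ∈ L) ∧
  ∀ x y, pair x y ∈ R → pair x y ∈ L

/-- The code of the rational number `(a - b) / (c + 1)`. -/
def rat (a b c : M) : M := pair a (pair b c)

/-- `(a - b) / (c + 1) < (a' - b') / (c' + 1)` -/
def ratLt (a b c a' b' c' : M) : Prop :=
  a * (c' + 1) + b' * (c + 1) < a' * (c + 1) + b * (c' + 1)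

/-- `(a - b) / (c + 1) = (a' - b') / (c' + 1)` -/
def ratEq (a b c a' b' c' : M) : Prop :=
  a * (c' + 1) + b' * (c + 1) = a' * (c + 1) + b * (c' + 1)

/-- The order of the rationals embeds into the partial order `(P, R)`, in the structure with
second-order part `S`: some `F ∈ S` codes a function from (codes of) rational numbers to `P` that
respects equality of rational numbers and is strictly increasing. -/
def EtaEmbeds (S : Set (Set M)) (P R : Set M) : Prop :=
  ∃ F ∈ S, (∀ a b c : M, ∃! y, pair (rat a b c) y ∈ F) ∧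
    (∀ a b c y : M, pair (rat a b c) y ∈ F → y ∈ P) ∧
    (∀ a b c a' b' c' y y' : M, ratEq a b c a' b' c' →
      pair (rat a b c) y ∈ F → pair (rat a' b' c') y' ∈ F → y = y') ∧
    (∀ a b c a' b' c' y y' : M, ratLt a b c a' b' c' →
      pair (rat a b c) y ∈ F → pair (rat a' b' c') y' ∈ F → pair y y' ∈ R ∧ y ≠ y')

/-- `EXT(η)` holds in the structure: every scattered partial order has a scattered
linearization. -/
def ExtEta (S : Set (Set M)) : Prop :=
  ∀ P ∈ S, ∀ R ∈ S, IsPO P R → ¬ EtaEmbeds S P R →
    ∃ L ∈ S, IsLinearization P R L ∧ ¬ EtaEmbeds S P L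

end Pool.Agent.Work.MP_4ee3e3_lc
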