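import Pool.Agent.Work.MP_4ee3e3_lc.Defs

/-!
# Definability engine

Closure properties of arithmetically definable predicates, organised as type classes so that
definability is found by instance search.
-/

set_option autoImplicit false

namespace Pool.Agent.Work.MP_4ee3e3_lc

universe u

/-- Contexts: values of the number variables and of the set variable. -/
structure Ctx (M : Type u) : Type u where
  n : ℕ → M
  Z : Set M

variable {M : Type u} [Zero M] [One M] [Add M] [Mul M] [LT M]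

/-- `f` is given by a term. -/
class Tf (f : Ctx M → M) : Prop where
  out : ∃ t : Tm M, ∀ c : Ctx M, f c = t.val c.n

/-- `R` is given by an arithmetical formula with parameters in `S`. -/
class Ar (S : Set (Set M)) (R : Ctx M → Prop) : Prop where
  out : ∃ φ : Arith M, φ.ParamsIn S ∧ ∀ c : Ctx M, R c ↔ φ.Sat c.Z c.n

/-! ### terms -/

instance tf_var (i : ℕ) : Tf (M := M) (fun c => c.n i) := ⟨.var i, fun _ => rfl⟩

instance tf_const (a : M) : Tf (M := M) (fun _ => a) := ⟨.param a, fun _ => rfl⟩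

instance tf_add (f g : Ctx M → M) [hf : Tf f] [hg : Tf g] : Tf (M := M) (fun c => f c + g c) := by
  obtain ⟨s, hs⟩ := hf.out
  obtain ⟨t, ht⟩ := hg.out
  exact ⟨.add s t, fun c => by rw [hs, ht]; rfl⟩

instance tf_mul (f g : Ctx M → M) [hf : Tf f] [hg : Tf g] : Tf (M := M) (fun c => f c * g c) := by
  obtain ⟨s, hs⟩ := hf.out
  obtain ⟨t, ht⟩ := hg.out
  exact ⟨.mul s t, fun c => by rw [hs, ht]; rfl⟩

instance tf_pair (f g : Ctx M → M) [hf : Tf f] [hg : Tf g] :
    Tf (M := M) (fun c => pair (f c) (g c)) := by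
  unfold pair
  infer_instance

/-- shift all variables of a term -/
def Tm.shift : Tm M → Tm M
  | .var i => .var (i + 1)
  | .param a => .param a
  | .zero => .zero
  | .one => .one
  | .add s t => .add s.shift t.shift
  | .mul s t => .mul s.shift t.shift

omit [LT M] in
theorem Tm.val_shift (t : Tm M) (v : ℕ → M) : t.shift.val v = t.val (fun i => v (i + 1)) := by
  induction t with
  | var i => rfl
  | param a => rfl
  | zero => rfl
  | one => rfl
  | add s t ihs iht => simp only [Tm.shift, Tm.val, ihs, iht]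
  | mul s t ihs iht => simp only [Tm.shift, Tm.val, ihs, iht]

instance (priority := low) tf_shift (f : Ctx M → M) [hf : Tf f] :
    Tf (M := M) (fun c => f ⟨fun i => c.n (i + 1), c.Z⟩) := by
  obtain ⟨s, hs⟩ := hf.out
  exact ⟨s.shift, fun c => by rw [hs, Tm.val_shift]⟩

instance (priority := low) tf_shift2 (f : Ctx M → M) [hf : Tf f] :
    Tf (M := M) (fun c => f ⟨fun i => c.n (i + 1 + 1), c.Z⟩) :=
  tf_shift (fun c => f ⟨fun i => c.n (i + 1), c.Z⟩)

instance (priority := low) tf_shift3 (f : Ctx M → M) [hf : Tf f] :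
    Tf (M := M) (fun c => f ⟨fun i => c.n (i + 1 + 1 + 1), c.Z⟩) :=
  tf_shift (fun c => f ⟨fun i => c.n (i + 1 + 1), c.Z⟩)

instance (priority := low) tf_shift4 (f : Ctx M → M) [hf : Tf f] :
    Tf (M := M) (fun c => f ⟨fun i => c.n (i + 1 + 1 + 1 + 1), c.Z⟩) :=
  tf_shift (fun c => f ⟨fun i => c.n (i + 1 + 1 + 1), c.Z⟩)

instance (priority := low) tf_shift5 (f : Ctx M → M) [hf : Tf f] :
    Tf (M := M) (fun c => f ⟨fun i => c.n (i + 1 + 1 + 1 + 1 + 1), c.Z⟩) :=
  tf_shift (fun c => f ⟨fun i => c.n (i + 1 + 1 + 1 + 1), c.Z⟩)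

instance (priority := low) tf_shift6 (f : Ctx M → M) [hf : Tf f] :
    Tf (M := M) (fun c => f ⟨fun i => c.n (i + 1 + 1 + 1 + 1 + 1 + 1), c.Z⟩) :=
  tf_shift (fun c => f ⟨fun i => c.n (i + 1 + 1 + 1 + 1 + 1), c.Z⟩)

instance (priority := low) tf_shift7 (f : Ctx M → M) [hf : Tf f] :
    Tf (M := M) (fun c => f ⟨fun i => c.n (i + 1 + 1 + 1 + 1 + 1 + 1 + 1), c.Z⟩) :=
  tf_shift (fun c => f ⟨fun i => c.n (i + 1 + 1 + 1 + 1 + 1 + 1), c.Z⟩)

instance (priority := low) tf_shift8 (f : Ctx M → M) [hf : Tf f] :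
    Tf (M := M) (fun c => f ⟨fun i => c.n (i + 1 + 1 + 1 + 1 + 1 + 1 + 1 + 1), c.Z⟩) :=
  tf_shift (fun c => f ⟨fun i => c.n (i + 1 + 1 + 1 + 1 + 1 + 1 + 1), c.Z⟩)

/-! ### formulas -/

variable {S : Set (Set M)}

instance ar_eq (f g : Ctx M → M) [hf : Tf f] [hg : Tf g] : Ar S (fun c => f c = g c) := by
  obtain ⟨s, hs⟩ := hf.out
  obtain ⟨t, ht⟩ := hg.out
  exact ⟨.eq s t, trivial, fun c => by rw [hs, ht]; rfl⟩

instance ar_lt (f g : Ctx M → M) [hf : Tf f] [hg : Tf g] : Ar S (fun c => f c < g c) := by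
  obtain ⟨s, hs⟩ := hf.out
  obtain ⟨t, ht⟩ := hg.out
  exact ⟨.lt s t, trivial, fun c => by rw [hs, ht]; rfl⟩

instance ar_mem (X : ↥S) (f : Ctx M → M) [hf : Tf f] : Ar S (fun c => f c ∈ X.1) := by
  obtain ⟨s, hs⟩ := hf.out
  exact ⟨.mem s X.1, X.2, fun c => by rw [hs]; rfl⟩

instance ar_memZ (f : Ctx M → M) [hf : Tf f] : Ar S (fun c => f c ∈ c.Z) := by
  obtain ⟨s, hs⟩ := hf.out
  exact ⟨.memZ s, trivial, fun c => by rw [hs]; rfl⟩

instance ar_not (P : Ctx M → Prop) [hP : Ar S P] : Ar S (fun c => ¬ P c) := by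
  obtain ⟨φ, h1, h2⟩ := hP.out
  exact ⟨.neg φ, h1, fun c => by rw [h2]; rfl⟩

instance ar_and (P Q : Ctx M → Prop) [hP : Ar S P] [hQ : Ar S Q] :
    Ar S (fun c => P c ∧ Q c) := by
  obtain ⟨φ, h1, h2⟩ := hP.out
  obtain ⟨ψ, h3, h4⟩ := hQ.out
  exact ⟨.and φ ψ, ⟨h1, h3⟩, fun c => by rw [h2, h4]; rfl⟩

theorem Ar.congr {P Q : Ctx M → Prop} (h : ∀ c, P c ↔ Q c) (hP : Ar S P) : Ar S Q := by
  obtain ⟨φ, h1, h2⟩ := hP.out
  exact ⟨φ, h1, fun c => by rw [← h, h2]⟩

instance ar_all (R : M → Ctx M → Prop)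
    [hR : Ar S (fun c => R (c.n 0) ⟨fun i => c.n (i + 1), c.Z⟩)] :
    Ar S (fun c => ∀ a : M, R a c) := by
  obtain ⟨φ, h1, h2⟩ := hR.out
  refine ⟨.all φ, h1, fun c => ?_⟩
  constructor
  · intro h a
    exact (h2 ⟨push a c.n, c.Z⟩).1 (h a)
  · intro h a
    exact (h2 ⟨push a c.n, c.Z⟩).2 (h a)

instance ar_ex (R : M → Ctx M → Prop)
    [hR : Ar S (fun c => R (c.n 0) ⟨fun i => c.n (i + 1), c.Z⟩)] :
    Ar S (fun c => ∃ a : M, R a c) := by
  have h : Ar S (fun c => ¬ ∀ a : M, ¬ R a c) := by infer_instance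
  exact h.congr fun c => by push Not; rfl

instance ar_imp (P Q : Ctx M → Prop) [hP : Ar S P] [hQ : Ar S Q] :
    Ar S (fun c => P c → Q c) := by
  have h : Ar S (fun c => ¬ (P c ∧ ¬ Q c)) := by infer_instance
  exact h.congr fun c => by tauto

instance ar_or (P Q : Ctx M → Prop) [hP : Ar S P] [hQ : Ar S Q] :
    Ar S (fun c => P c ∨ Q c) := by
  have h : Ar S (fun c => ¬ (¬ P c ∧ ¬ Q c)) := by infer_instance
  exact h.congr fun c => by tauto

instance ar_iff (P Q : Ctx M → Prop) [hP : Ar S P] [hQ : Ar S Q] :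
    Ar S (fun c => P c ↔ Q c) := by
  have h : Ar S (fun c => (P c → Q c) ∧ (Q c → P c)) := by infer_instance
  exact h.congr fun c => by tauto

instance ar_ne (f g : Ctx M → M) [hf : Tf f] [hg : Tf g] : Ar S (fun c => f c ≠ g c) := by
  have h : Ar S (fun c => ¬ (f c = g c)) := by infer_instance
  exact h

instance ar_nmem (X : ↥S) (f : Ctx M → M) [hf : Tf f] : Ar S (fun c => f c ∉ X.1) := by
  have h : Ar S (fun c => ¬ (f c ∈ X.1)) := by infer_instance
  exact h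

instance ar_nmemZ (f : Ctx M → M) [hf : Tf f] : Ar S (fun c => f c ∉ c.Z) := by
  have h : Ar S (fun c => ¬ (f c ∈ c.Z)) := by infer_instance
  exact h

instance ar_existsUnique (R : M → Ctx M → Prop)
    [hR : Ar S (fun c => R (c.n 0) ⟨fun i => c.n (i + 1), c.Z⟩)]
    [hR' : Ar S (fun c => R (c.n 0) ⟨fun i => c.n (i + 1 + 1), c.Z⟩)] :
    Ar S (fun c => ∃! a : M, R a c) := by
  have h : Ar S (fun c => ∃ a : M, R a c ∧ ∀ b : M, R b c → b = a) := by infer_instance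
  exact h

theorem Ar.comp1 {R : M → Set M → Prop} (h : Ar S (fun c => R (c.n 0) c.Z))
    (f : Ctx M → M) [Tf f] : Ar S (fun c => R (f c) c.Z) := by
  have h : Ar S (fun c => ∃ a, a = f c ∧ R a c.Z) := by infer_instance
  exact h.congr fun c => by simp

theorem Ar.comp2 {R : M → M → Set M → Prop} (h : Ar S (fun c => R (c.n 0) (c.n 1) c.Z))
    (f g : Ctx M → M) [Tf f] [Tf g] : Ar S (fun c => R (f c) (g c) c.Z) := by
  have h : Ar S (fun c => ∃ b, ∃ a, a = f c ∧ b = g c ∧ R a b c.Z) := by infer_instance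
  exact h.congr fun c => by
    constructor
    · rintro ⟨b, a, rfl, rfl, h⟩
      exact h
    · intro h
      exact ⟨_, _, rfl, rfl, h⟩

theorem Ar.comp3 {R : M → M → M → Set M → Prop}
    (h : Ar S (fun c => R (c.n 0) (c.n 1) (c.n 2) c.Z))
    (f g k : Ctx M → M) [Tf f] [Tf g] [Tf k] : Ar S (fun c => R (f c) (g c) (k c) c.Z) := by
  have h : Ar S (fun c => ∃ d, ∃ b, ∃ a, a = f c ∧ b = g c ∧ d = k c ∧ R a b d c.Z) := by
    infer_instance
  exact h.congr fun c => by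
    constructor
    · rintro ⟨d, b, a, rfl, rfl, rfl, h⟩
      exact h
    · intro h
      exact ⟨_, _, _, rfl, rfl, rfl, h⟩

theorem Ar.comp4 {R : M → M → M → M → Set M → Prop}
    (h : Ar S (fun c => R (c.n 0) (c.n 1) (c.n 2) (c.n 3) c.Z))
    (f g k l : Ctx M → M) [Tf f] [Tf g] [Tf k] [Tf l] :
    Ar S (fun c => R (f c) (g c) (k c) (l c) c.Z) := by
  have h : Ar S (fun c => ∃ e, ∃ d, ∃ b, ∃ a, a = f c ∧ b = g c ∧ d = k c ∧ e = l c ∧
      R a b d e c.Z) := by
    infer_instance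
  exact h.congr fun c => by
    constructor
    · rintro ⟨e, d, b, a, rfl, rfl, rfl, rfl, h⟩
      exact h
    · intro h
      exact ⟨_, _, _, _, rfl, rfl, rfl, rfl, h⟩

theorem Ar.mem_setOf (H : IsModelATR0 S) {R : M → Prop} (hR : Ar S (fun c => R (c.n 0))) :
    {x | R x} ∈ S := by
  obtain ⟨φ, h1, h2⟩ := hR.out
  have h := H.comprehension φ h1 (fun _ => 0)
  have he : {x | R x} = {n | φ.Sat ∅ (push n (fun _ => 0))} := by
    ext x
    exact h2 ⟨push x (fun _ => 0), ∅⟩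
  rw [he]
  exact h

/-- induction for arithmetical predicates -/
theorem IsModelATR0.ind (H : IsModelATR0 S) (R : M → Prop)
    [hR : Ar S (fun c => R (c.n 0))] (h0 : R 0) (hs : ∀ n, R n → R (n + 1)) : ∀ n, R n :=
  H.induction {x | R x} (Ar.mem_setOf H hR) h0 hs

end Pool.Agent.Work.MP_4ee3e3_lc
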