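import Pool.Agent.Work.MP_4ee3e3_lc.Scatter

/-!
# Rational numbers in a model, paths, and the final theorem
-/

set_option autoImplicit false
set_option linter.unusedSectionVars false

namespace Pool.Agent.Work.MP_4ee3e3_lc

universe u

section

variable {M : Type u} [CommSemiring M] [LinearOrder M] [IsStrictOrderedRing M] {S : Set (Set M)}

variable (H : IsModelATR0 S)

/-! ### rationals -/

include H in
theorem rat_inj {a b c a' b' c' : M} : rat a b c = rat a' b' c' ↔ a = a' ∧ b = b' ∧ c = c' := by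
  unfold rat
  rw [H.pair_inj, H.pair_inj]

include H in
theorem succ_pos' (c : M) : 0 < c + 1 := lt_of_le_of_lt (H.zero_le c) ((H.lt_succ_iff c c).2 le_rfl)

/-- comparison, possibly non-strict -/
def ratLe (a b c a' b' c' : M) : Prop :=
  a * (c' + 1) + b' * (c + 1) ≤ a' * (c + 1) + b * (c' + 1)

theorem rat_id1 (a c a' b' c' b'' c'' : M) :
    (a * (c' + 1) + b' * (c + 1)) * (c'' + 1) + (a' * (c'' + 1) + b'' * (c' + 1)) * (c + 1) =
    (b' * (c + 1) * (c'' + 1) + a' * (c'' + 1) * (c + 1)) +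
      (a * (c'' + 1) + b'' * (c + 1)) * (c' + 1) := by ring

theorem rat_id2 (b c a' b' c' a'' c'' : M) :
    (a' * (c + 1) + b * (c' + 1)) * (c'' + 1) + (a'' * (c' + 1) + b' * (c'' + 1)) * (c + 1) =
    (b' * (c + 1) * (c'' + 1) + a' * (c'' + 1) * (c + 1)) +
      (a'' * (c + 1) + b * (c'' + 1)) * (c' + 1) := by ring

include H in
theorem ratLe_trans {a b c a' b' c' a'' b'' c'' : M} (h : ratLe a b c a' b' c')
    (h' : ratLe a' b' c' a'' b'' c'') : ratLe a b c a'' b'' c'' := by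
  unfold ratLe at *
  have h1 := add_le_add (mul_le_mul_of_nonneg_right h (succ_pos' H c'').le)
    (mul_le_mul_of_nonneg_right h' (succ_pos' H c).le)
  rw [rat_id1, rat_id2] at h1
  exact le_of_mul_le_mul_right (le_of_add_le_add_left h1) (succ_pos' H c')

include H in
theorem ratLt_of_lt_of_le {a b c a' b' c' a'' b'' c'' : M} (h : ratLt a b c a' b' c')
    (h' : ratLe a' b' c' a'' b'' c'') : ratLt a b c a'' b'' c'' := by
  unfold ratLt ratLe at *
  have h1 := add_lt_add_of_lt_of_le (mul_lt_mul_of_pos_right h (succ_pos' H c''))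
    (mul_le_mul_of_nonneg_right h' (succ_pos' H c).le)
  rw [rat_id1, rat_id2] at h1
  exact lt_of_mul_lt_mul_right (lt_of_add_lt_add_left h1) (succ_pos' H c').le

include H in
theorem ratLt_of_le_of_lt {a b c a' b' c' a'' b'' c'' : M} (h : ratLe a b c a' b' c')
    (h' : ratLt a' b' c' a'' b'' c'') : ratLt a b c a'' b'' c'' := by
  unfold ratLt ratLe at *
  have h1 := add_lt_add_of_le_of_lt (mul_le_mul_of_nonneg_right h (succ_pos' H c'').le)
    (mul_lt_mul_of_pos_right h' (succ_pos' H c))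
  rw [rat_id1, rat_id2] at h1
  exact lt_of_mul_lt_mul_right (lt_of_add_lt_add_left h1) (succ_pos' H c').le

theorem ratLt.le {a b c a' b' c' : M} (h : ratLt a b c a' b' c') : ratLe a b c a' b' c' :=
  le_of_lt h

theorem ratEq.le {a b c a' b' c' : M} (h : ratEq a b c a' b' c') : ratLe a b c a' b' c' :=
  le_of_eq h

theorem ratEq.symm' {a b c a' b' c' : M} (h : ratEq a b c a' b' c') : ratEq a' b' c' a b c := by
  unfold ratEq at *
  exact h.symm

theorem ratEq_of {a b c a' b' c' : M} (h : ratLe a b c a' b' c') (h' : ratLe a' b' c' a b c) :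
    ratEq a b c a' b' c' := le_antisymm h h'

include H in
theorem ratEq_trans {a b c a' b' c' a'' b'' c'' : M} (h : ratEq a b c a' b' c')
    (h' : ratEq a' b' c' a'' b'' c'') : ratEq a b c a'' b'' c'' :=
  ratEq_of (ratLe_trans H h.le h'.le) (ratLe_trans H h'.symm'.le h.symm'.le)

theorem ratLt_irrefl {a b c : M} : ¬ ratLt a b c a b c := lt_irrefl _

theorem rat_tri (a b c a' b' c' : M) :
    ratLt a b c a' b' c' ∨ ratEq a b c a' b' c' ∨ ratLt a' b' c' a b c :=
  lt_trichotomy _ _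

theorem rat_mid1 {a b c a' b' c' : M} (h : ratLt a b c a' b' c') :
    ratLt a b c (a + a') (b + b') (c + c' + 1) := by
  unfold ratLt at *
  have h1 : a * (c + c' + 1 + 1) + (b + b') * (c + 1) =
      (a * (c + 1) + b * (c + 1)) + (a * (c' + 1) + b' * (c + 1)) := by ring
  have h2 : (a + a') * (c + 1) + b * (c + c' + 1 + 1) =
      (a * (c + 1) + b * (c + 1)) + (a' * (c + 1) + b * (c' + 1)) := by ring
  rw [h1, h2]
  exact add_lt_add_right h _

theorem rat_mid2 {a b c a' b' c' : M} (h : ratLt a b c a' b' c') :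
    ratLt (a + a') (b + b') (c + c' + 1) a' b' c' := by
  unfold ratLt at *
  have h1 : (a + a') * (c' + 1) + b' * (c + c' + 1 + 1) =
      (a' * (c' + 1) + b' * (c' + 1)) + (a * (c' + 1) + b' * (c + 1)) := by ring
  have h2 : a' * (c + c' + 1 + 1) + (b + b') * (c' + 1) =
      (a' * (c' + 1) + b' * (c' + 1)) + (a' * (c + 1) + b * (c' + 1)) := by ring
  rw [h1, h2]
  exact add_lt_add_right h _

theorem ar_IsRat0 : Ar S (fun c : Ctx M => ∃ x y z, c.n 0 = rat x y z) := by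
  unfold rat
  infer_instance

/-- being the code of a rational number -/
def IsRat (q : M) : Prop := ∃ a b c, q = rat a b c

instance ar_IsRat (f : Ctx M → M) [Tf f] : Ar S (fun c => IsRat (f c)) := by
  unfold IsRat rat
  infer_instance

/-- the strict order of the rationals, on codes -/
def QLt (q q' : M) : Prop :=
  ∃ a b c a' b' c', (q = rat a b c ∧ q' = rat a' b' c') ∧ ratLt a b c a' b' c'

/-- equality of rationals, on codes -/
def QEq (q q' : M) : Prop :=
  ∃ a b c a' b' c', (q = rat a b c ∧ q' = rat a' b' c') ∧ ratEq a b c a' b' c'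

theorem ar_QLt0 : Ar S (fun c : Ctx M => QLt (c.n 0) (c.n 1)) := by
  unfold QLt rat ratLt
  infer_instance

theorem ar_QEq0 : Ar S (fun c : Ctx M => QEq (c.n 0) (c.n 1)) := by
  unfold QEq rat ratEq
  infer_instance

instance ar_QLt (f g : Ctx M → M) [Tf f] [Tf g] : Ar S (fun c => QLt (f c) (g c)) :=
  Ar.comp2 (R := fun a b _ => QLt a b) ar_QLt0 f g

instance ar_QEq (f g : Ctx M → M) [Tf f] [Tf g] : Ar S (fun c => QEq (f c) (g c)) :=
  Ar.comp2 (R := fun a b _ => QEq a b) ar_QEq0 f g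

include H in
theorem QLt_rat {a b c a' b' c' : M} :
    QLt (rat a b c) (rat a' b' c') ↔ ratLt a b c a' b' c' := by
  constructor
  · rintro ⟨x, y, z, x', y', z', ⟨h1, h2⟩, h3⟩
    rw [rat_inj H] at h1 h2
    obtain ⟨rfl, rfl, rfl⟩ := h1
    obtain ⟨rfl, rfl, rfl⟩ := h2
    exact h3
  · intro h
    exact ⟨_, _, _, _, _, _, ⟨rfl, rfl⟩, h⟩

include H in
theorem QEq_rat {a b c a' b' c' : M} :
    QEq (rat a b c) (rat a' b' c') ↔ ratEq a b c a' b' c' := by
  constructor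
  · rintro ⟨x, y, z, x', y', z', ⟨h1, h2⟩, h3⟩
    rw [rat_inj H] at h1 h2
    obtain ⟨rfl, rfl, rfl⟩ := h1
    obtain ⟨rfl, rfl, rfl⟩ := h2
    exact h3
  · intro h
    exact ⟨_, _, _, _, _, _, ⟨rfl, rfl⟩, h⟩

theorem QEq.left {q q' : M} (h : QEq q q') : IsRat q := by
  obtain ⟨a, b, c, a', b', c', ⟨h1, h2⟩, -⟩ := h
  exact ⟨a, b, c, h1⟩

theorem QEq.right {q q' : M} (h : QEq q q') : IsRat q' := by
  obtain ⟨a, b, c, a', b', c', ⟨h1, h2⟩, -⟩ := h
  exact ⟨a', b', c', h2⟩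

theorem QLt.left {q q' : M} (h : QLt q q') : IsRat q := by
  obtain ⟨a, b, c, a', b', c', ⟨h1, h2⟩, -⟩ := h
  exact ⟨a, b, c, h1⟩

theorem QLt.right {q q' : M} (h : QLt q q') : IsRat q' := by
  obtain ⟨a, b, c, a', b', c', ⟨h1, h2⟩, -⟩ := h
  exact ⟨a', b', c', h2⟩

include H in
theorem QLt.trans {q q' q'' : M} (h : QLt q q') (h' : QLt q' q'') : QLt q q'' := by
  obtain ⟨a, b, c, rfl⟩ := h.left
  obtain ⟨a', b', c', rfl⟩ := h.right
  obtain ⟨a'', b'', c'', rfl⟩ := h'.right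
  rw [QLt_rat H] at *
  exact ratLt_of_lt_of_le H h h'.le

include H in
theorem QLt_of_eq_lt {q q' q'' : M} (h : QEq q q') (h' : QLt q' q'') : QLt q q'' := by
  obtain ⟨a, b, c, rfl⟩ := h.left
  obtain ⟨a', b', c', rfl⟩ := h.right
  obtain ⟨a'', b'', c'', rfl⟩ := h'.right
  rw [QEq_rat H] at h
  rw [QLt_rat H] at *
  exact ratLt_of_le_of_lt H h.le h'

include H in
theorem QLt_of_lt_eq {q q' q'' : M} (h : QLt q q') (h' : QEq q' q'') : QLt q q'' := by
  obtain ⟨a, b, c, rfl⟩ := h.left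
  obtain ⟨a', b', c', rfl⟩ := h.right
  obtain ⟨a'', b'', c'', rfl⟩ := h'.right
  rw [QEq_rat H] at h'
  rw [QLt_rat H] at *
  exact ratLt_of_lt_of_le H h h'.le

include H in
theorem QEq.symm {q q' : M} (h : QEq q q') : QEq q' q := by
  obtain ⟨a, b, c, rfl⟩ := h.left
  obtain ⟨a', b', c', rfl⟩ := h.right
  rw [QEq_rat H] at *
  exact h.symm'

include H in
theorem QEq.trans {q q' q'' : M} (h : QEq q q') (h' : QEq q' q'') : QEq q q'' := by
  obtain ⟨a, b, c, rfl⟩ := h.left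
  obtain ⟨a', b', c', rfl⟩ := h.right
  obtain ⟨a'', b'', c'', rfl⟩ := h'.right
  rw [QEq_rat H] at *
  exact ratEq_trans H h h'

include H in
theorem QEq.refl {q : M} (h : IsRat q) : QEq q q := by
  obtain ⟨a, b, c, rfl⟩ := h
  rw [QEq_rat H]
  exact rfl

include H in
theorem QLt.irrefl {q : M} : ¬ QLt q q := by
  intro h
  obtain ⟨a, b, c, rfl⟩ := h.left
  rw [QLt_rat H] at h
  exact ratLt_irrefl h

include H in
theorem Q_tri {q q' : M} (h : IsRat q) (h' : IsRat q') : QLt q q' ∨ QEq q q' ∨ QLt q' q := by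
  obtain ⟨a, b, c, rfl⟩ := h
  obtain ⟨a', b', c', rfl⟩ := h'
  rw [QLt_rat H, QEq_rat H, QLt_rat H]
  exact rat_tri a b c a' b' c'

include H in
theorem Q_dense {q q' : M} (h : QLt q q') : ∃ r, QLt q r ∧ QLt r q' := by
  obtain ⟨a, b, c, rfl⟩ := h.left
  obtain ⟨a', b', c', rfl⟩ := h.right
  rw [QLt_rat H] at h
  refine ⟨rat (a + a') (b + b') (c + c' + 1), ?_, ?_⟩
  · rw [QLt_rat H]
    exact rat_mid1 h
  · rw [QLt_rat H]
    exact rat_mid2 h

include H in
theorem Q_exists : ∃ q q' : M, QLt q q' := by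
  refine ⟨rat 0 0 0, rat 1 0 0, ?_⟩
  rw [QLt_rat H]
  unfold ratLt
  simp

/-- the least code of a rational -/
def MinCode (q : M) : Prop := IsRat q ∧ ∀ q', QEq q' q → q ≤ q'

instance ar_MinCode (f : Ctx M → M) [Tf f] : Ar S (fun c => MinCode (f c)) :=
  Ar.comp1 (R := fun a _ => MinCode a)
    (by
      unfold MinCode
      infer_instance) f

include H in
theorem minCode_exists {q : M} (h : IsRat q) : ∃ i, MinCode i ∧ QEq i q := by
  obtain ⟨i, hi, hmin⟩ := H.least (fun i => QEq i q) ⟨q, QEq.refl H h⟩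
  exact ⟨i, ⟨hi.left, fun q' hq' => hmin q' (QEq.trans H hq' hi)⟩, hi⟩

include H in
theorem minCode_unique {i j : M} (hi : MinCode i) (hj : MinCode j) (h : QEq i j) : i = j :=
  le_antisymm (hi.2 j (QEq.symm H h)) (hj.2 i h)

/-- the strict order of the rationals on least codes -/
def DD : ↥S := mk2 H (fun i j => (MinCode i ∧ MinCode j) ∧ QLt i j)

theorem mem_DD (i j : M) : pair i j ∈ (DD H).1 ↔ (MinCode i ∧ MinCode j) ∧ QLt i j :=
  mem_mk2 H _ i j

theorem DD_strict : IsStrictLO (DD H) := by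
  constructor
  · intro i h
    rw [mem_DD] at h
    exact QLt.irrefl H h.2
  · intro i j k h1 h2
    rw [mem_DD] at *
    exact ⟨⟨h1.1.1, h2.1.2⟩, QLt.trans H h1.2 h2.2⟩
  · intro i j k l h1 h2
    have hi : MinCode i := by
      rcases h1 with h1 | h1
      · rw [mem_DD] at h1
        exact h1.1.1
      · rw [mem_DD] at h1
        exact h1.1.2
    have hj : MinCode j := by
      rcases h2 with h2 | h2
      · rw [mem_DD] at h2
        exact h2.1.1
      · rw [mem_DD] at h2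
        exact h2.1.2
    rw [mem_DD, mem_DD]
    rcases Q_tri H hi.1 hj.1 with h | h | h
    · exact Or.inl ⟨⟨hi, hj⟩, h⟩
    · exact Or.inr (Or.inl (minCode_unique H hi hj h))
    · exact Or.inr (Or.inr ⟨⟨hj, hi⟩, h⟩)

variable (P R : ↥S)

/-- An infinite path yields an embedding of the rationals. -/
theorem embeds_of_path (U : ↥S) (hU : IsPath H (TT H P R (DD H)) U) :
    EtaEmbeds S P.1 R.1 := by
  have hUT : ∀ σ, σ ∈ U.1 → InT H P R (DD H) σ := hU.sub
  -- the function along the path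
  have hex : ∀ i, ∃ x, ∃ τ, τ ∈ U.1 ∧ Ent H τ i x := by
    intro i
    obtain ⟨τ, hτ, hl⟩ := hU.len (i + 1)
    obtain ⟨x, hx⟩ := ent_exists H hl ((H.lt_succ_iff i i).2 le_rfl)
    exact ⟨x, τ, hτ, hx⟩
  have hcommon : ∀ i x j y, (∃ τ, τ ∈ U.1 ∧ Ent H τ i x) → (∃ τ, τ ∈ U.1 ∧ Ent H τ j y) →
      ∃ τ, τ ∈ U.1 ∧ Ent H τ i x ∧ Ent H τ j y := by
    rintro i x j y ⟨τ, h1, h2⟩ ⟨τ', h3, h4⟩
    rcases hU.comp τ τ' h1 h3 with h | h
    · exact ⟨τ, h1, h2, ent_ext H h h4⟩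
    · exact ⟨τ', h3, ent_ext H h h2, h4⟩
  have huniq : ∀ i x y, (∃ τ, τ ∈ U.1 ∧ Ent H τ i x) → (∃ τ, τ ∈ U.1 ∧ Ent H τ i y) → x = y := by
    intro i x y h1 h2
    obtain ⟨τ, -, h3, h4⟩ := hcommon i x i y h1 h2
    exact ent_unique H h3 h4
  refine ⟨(mk2 H (fun q y : M => ∃ i : M, (MinCode i ∧ QEq i q) ∧ ∃ τ, τ ∈ U.1 ∧ Ent H τ i y)).1,
    (mk2 H _).2, ?_, ?_, ?_, ?_⟩
  · intro a b c
    obtain ⟨i, hi, hiq⟩ := minCode_exists H (q := rat a b c) ⟨a, b, c, rfl⟩
    obtain ⟨x, hx⟩ := hex i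
    refine ⟨x, ?_, ?_⟩
    · show pair _ _ ∈ (mk2 H _).1
      rw [mem_mk2]
      exact ⟨i, ⟨hi, hiq⟩, hx⟩
    · intro y hy
      replace hy : pair _ _ ∈ (mk2 H _).1 := hy
      rw [mem_mk2] at hy
      obtain ⟨j, ⟨hj, hjq⟩, hy⟩ := hy
      have e := minCode_unique H hi hj (QEq.trans H hiq (QEq.symm H hjq))
      subst e
      exact huniq i y x hy hx
  · intro a b c y hy
    rw [mem_mk2] at hy
    obtain ⟨j, -, τ, hτ, hy⟩ := hy
    exact (hUT τ hτ).2.1 j y hy
  · intro a b c a' b' c' y y' h hy hy'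
    rw [mem_mk2] at hy hy'
    obtain ⟨i, ⟨hi, hiq⟩, hy⟩ := hy
    obtain ⟨j, ⟨hj, hjq⟩, hy'⟩ := hy'
    rw [← QEq_rat H] at h
    have e := minCode_unique H hi hj (QEq.trans H (QEq.trans H hiq h) (QEq.symm H hjq))
    subst e
    exact huniq i y y' hy hy'
  · intro a b c a' b' c' y y' h hy hy'
    rw [mem_mk2] at hy hy'
    obtain ⟨i, ⟨hi, hiq⟩, hy⟩ := hy
    obtain ⟨j, ⟨hj, hjq⟩, hy'⟩ := hy'
    rw [← QLt_rat H] at h
    have hij : QLt i j := QLt_of_lt_eq H (QLt_of_eq_lt H hiq h) (QEq.symm H hjq)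
    obtain ⟨τ, hτ, h1, h2⟩ := hcommon i y j y' hy hy'
    exact (hUT τ hτ).2.2 i y j y' h1 h2 ((mem_DD H i j).2 ⟨⟨hi, hj⟩, hij⟩)

include H in
/-- The main theorem for structures given as ordered commutative semirings. -/
theorem main : ExtEta S := by
  intro P0 hP0 R0 hR0 hPO hsc
  let P : ↥S := ⟨P0, hP0⟩
  let R : ↥S := ⟨R0, hR0⟩
  have hPO' : IsPO P.1 R.1 := hPO
  have hnopath : ¬ ∃ U : ↥S, IsPath H (TT H P R (DD H)) U := by
    rintro ⟨U, hU⟩
    exact hsc (embeds_of_path H P R U hU)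
  have hWO := KB_wo H (TT H P R (DD H)) (TT_tree H P R (DD H)) hnopath
  obtain ⟨Y, hY⟩ := exists_sol H P R (DD H) (DD_strict H) hWO
  obtain ⟨m, -, hlin⟩ := invariant H P R (DD H) hPO' (DD_strict H) hWO Y hY 0
    (nil_mem H P R (DD H)) 0 (len_zero H)
  have hlin' : LinOn R Y.1 0 (fun y => y ∈ P.1) :=
    ((linG_iff H P R (DD H) Y 0 m).1 hlin).congr fun y => gap_nil H P R (DD H)
  refine ⟨(mk2 H (fun y y' => Le Y.1 0 y y')).1, (mk2 H _).2, ⟨⟨?_, ?_, ?_, ?_⟩, ?_, ?_⟩, ?_⟩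
  · intro x y h
    rw [mem_mk2] at h
    exact hlin'.sub x y h
  · intro x h
    rw [mem_mk2]
    exact hlin'.refl x h
  · intro x y z h1 h2
    rw [mem_mk2] at *
    exact hlin'.trans x y z h1 h2
  · intro x y h1 h2
    rw [mem_mk2] at *
    exact hlin'.antisymm x y h1 h2
  · intro x y h1 h2
    rw [mem_mk2, mem_mk2]
    exact hlin'.total x y h1 h2
  · intro x y h
    rw [mem_mk2]
    have := hPO.1 x y h
    exact hlin'.ext x y this.1 this.2 h
  · rintro ⟨F, hF, hF1, -, -, hF4⟩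
    apply scattered H P R (DD H) hPO' (DD_strict H) hWO Y hY (mk2 H (fun q q' => QLt q q'))
      ⟨F, hF⟩
    · intro a b c
      rw [mem_mk2, mem_mk2, mem_mk2]
      exact fun h1 h2 => QLt.trans H h1 h2
    · intro a b
      rw [mem_mk2]
      intro h
      obtain ⟨r, h1, h2⟩ := Q_dense H h
      exact ⟨r, by rw [mem_mk2]; exact h1, by rw [mem_mk2]; exact h2⟩
    · obtain ⟨q, q', h⟩ := Q_exists H
      exact ⟨q, q', by rw [mem_mk2]; exact h⟩
    · intro w v h
      rw [mem_mk2] at h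
      obtain ⟨a, b, c, rfl⟩ := h.right
      obtain ⟨y, hy, -⟩ := hF1 a b c
      exact ⟨y, hy⟩
    · intro w w' y y' h h1 h2
      rw [mem_mk2] at h
      obtain ⟨a, b, c, rfl⟩ := h.left
      obtain ⟨a', b', c', rfl⟩ := h.right
      rw [QLt_rat H] at h
      have h3 := hF4 a b c a' b' c' y y' h h1 h2
      rw [mem_mk2] at h3
      exact h3

end

/-- Every model of `ATR_0` satisfies `EXT(η)`. -/
theorem extEta_of_model {M : Type u} [Zero M] [One M] [Add M] [Mul M] [LT M] (S : Set (Set M))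
    (H : IsModelATR0 S) : ExtEta S := by
  let _ := csr H
  let _ := lo H
  have := isor H
  exact main (S := S) H

end Pool.Agent.Work.MP_4ee3e3_lc
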