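import Pool.Agent.Work.MP_4ee3e3_lc.Step

/-!
# The order on a gap built from the orders at the children is a linearization
-/

set_option autoImplicit false
set_option linter.unusedSectionVars false

namespace Pool.Agent.Work.MP_4ee3e3_lc

universe u

variable {M : Type u} [CommSemiring M] [LinearOrder M] [IsStrictOrderedRing M] {S : Set (Set M)}

/-- The order stored in `Z` at stage `τ` is a linear order on `G` extending `R`. -/
structure LinOn (R : ↥S) (Z : Set M) (τ : M) (G : M → Prop) : Prop where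
  sub : ∀ y y', Le Z τ y y' → G y ∧ G y'
  refl : ∀ y, G y → Le Z τ y y
  trans : ∀ x y z, Le Z τ x y → Le Z τ y z → Le Z τ x z
  antisymm : ∀ x y, Le Z τ x y → Le Z τ y x → x = y
  total : ∀ x y, G x → G y → Le Z τ x y ∨ Le Z τ y x
  ext : ∀ x y, G x → G y → pair x y ∈ R.1 → Le Z τ x y

theorem LinOn.iff {R : ↥S} {Z : Set M} {τ : M} {G : M → Prop} (h : LinOn R Z τ G) (y : M) :
    Le Z τ y y ↔ G y :=
  ⟨fun h' => (h.sub y y h').1, h.refl y⟩

theorem LinOn.congr {R : ↥S} {Z : Set M} {τ : M} {G G' : M → Prop} (h : LinOn R Z τ G)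
    (hG : ∀ y, G y ↔ G' y) : LinOn R Z τ G' := by
  have : G = G' := funext fun y => propext (hG y)
  rw [← this]
  exact h

variable (H : IsModelATR0 S) (P R D Y : ↥S)

theorem KA_unique {σ n y x x' : M} (h : KA H P R D Y.1 σ n y x)
    (h' : KA H P R D Y.1 σ n y x') : x = x' :=
  le_antisymm (h.2 x' h'.1) (h'.2 x h.1)

theorem KB_unique {σ n y x x' : M} (h : KB' H P R D Y.1 σ n y x)
    (h' : KB' H P R D Y.1 σ n y x') : x = x' :=
  le_antisymm (h.2 x' h'.1) (h'.2 x h.1)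

theorem KA_exists {σ n y : M} (h : InA H P R D Y.1 σ n y) : ∃ x, KA H P R D Y.1 σ n y x :=
  H.least (fun x => Lft H P R D Y.1 σ n x ∧ pair y x ∈ R.1) h

theorem KB_exists (hPO : IsPO P.1 R.1) {σ n y : M} (h : Gap H P R D σ n y)
    (h' : ¬ InA H P R D Y.1 σ n y) : ∃ x, KB' H P R D Y.1 σ n y x :=
  H.least (fun x => (Gap H P R D σ n x ∧ ¬ InA H P R D Y.1 σ n x) ∧ pair x y ∈ R.1)
    ⟨y, ⟨h, h'⟩, hPO.2.1 y h.1⟩

theorem KA.inA {σ n y x : M} (h : KA H P R D Y.1 σ n y x) : InA H P R D Y.1 σ n y :=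
  ⟨x, h.1⟩

theorem Lft.inA (hPO : IsPO P.1 R.1) {σ n x : M} (h : Lft H P R D Y.1 σ n x) :
    InA H P R D Y.1 σ n x := ⟨x, h, hPO.2.1 x h.1.1⟩

/-- the relation of case (ii) -/
def Rel2 (σ n y y' : M) : Prop :=
  Gap H P R D σ n y ∧ Gap H P R D σ n y' ∧ Ord2 H P R D Y.1 σ n y y'

section

variable {σ n : M} (hPO : IsPO P.1 R.1)
  (hL : ∀ x, Lft H P R D Y.1 σ n x →
    LinOn R Y.1 (cons x σ) (fun w => Gap H P R D σ n w ∧ PLt R w x))
  (hR : ∀ x, Gap H P R D σ n x → ¬ Lft H P R D Y.1 σ n x →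
    LinOn R Y.1 (cons x σ) (fun w => Gap H P R D σ n w ∧ PLt R x w))

include hPO in
theorem inA_down {y y' : M} (h : pair y y' ∈ R.1) (h' : InA H P R D Y.1 σ n y') :
    InA H P R D Y.1 σ n y := by
  obtain ⟨x, hx, hy⟩ := h'
  exact ⟨x, hx, hPO.2.2.1 _ _ _ h hy⟩

include hPO hR in
theorem hR' {x y : M} (h : KB' H P R D Y.1 σ n y x) :
    LinOn R Y.1 (cons x σ) (fun w => Gap H P R D σ n w ∧ PLt R x w) :=
  hR x h.1.1.1 fun h' => h.1.1.2 (h'.inA H P R D Y hPO)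

include hPO hL hR in
theorem rel2_refl {y : M} (hy : Gap H P R D σ n y) : Rel2 H P R D Y σ n y y := by
  refine ⟨hy, hy, ?_⟩
  by_cases hA : InA H P R D Y.1 σ n y
  · obtain ⟨x, hx⟩ := KA_exists H P R D Y hA
    refine Or.inr (Or.inl ⟨x, x, hx, hx, Or.inr ⟨rfl, ?_⟩⟩)
    by_cases hyx : y = x
    · exact Or.inl hyx
    · exact Or.inr ((hL x hx.1.1).refl y ⟨hy, hx.1.2, hyx⟩)
  · obtain ⟨x, hx⟩ := KB_exists H P R D Y hPO hy hA
    refine Or.inr (Or.inr ⟨⟨hA, hA⟩, x, x, hx, hx, Or.inr ⟨rfl, ?_⟩⟩)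
    by_cases hyx : y = x
    · exact Or.inl hyx
    · exact Or.inr ((hR' H P R D Y hPO hR hx).refl y ⟨hy, hx.1.2, fun h => hyx h.symm⟩)

include hPO hL hR in
theorem rel2_total {y y' : M} (hy : Gap H P R D σ n y) (hy' : Gap H P R D σ n y') :
    Rel2 H P R D Y σ n y y' ∨ Rel2 H P R D Y σ n y' y := by
  by_cases hA : InA H P R D Y.1 σ n y
  · by_cases hA' : InA H P R D Y.1 σ n y'
    · obtain ⟨x, hx⟩ := KA_exists H P R D Y hA
      obtain ⟨x', hx'⟩ := KA_exists H P R D Y hA'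
      rcases lt_trichotomy x x' with h | h | h
      · exact Or.inl ⟨hy, hy', Or.inr (Or.inl ⟨x, x', hx, hx', Or.inl h⟩)⟩
      · subst h
        by_cases h1 : y' = x
        · exact Or.inl ⟨hy, hy', Or.inr (Or.inl ⟨x, x, hx, hx', Or.inr ⟨rfl, Or.inl h1⟩⟩)⟩
        · by_cases h2 : y = x
          · exact Or.inr ⟨hy', hy, Or.inr (Or.inl ⟨x, x, hx', hx, Or.inr ⟨rfl, Or.inl h2⟩⟩)⟩
          · rcases (hL x hx.1.1).total y y' ⟨hy, hx.1.2, h2⟩ ⟨hy', hx'.1.2, h1⟩ with h | h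
            · exact Or.inl ⟨hy, hy', Or.inr (Or.inl ⟨x, x, hx, hx', Or.inr ⟨rfl, Or.inr h⟩⟩)⟩
            · exact Or.inr ⟨hy', hy, Or.inr (Or.inl ⟨x, x, hx', hx, Or.inr ⟨rfl, Or.inr h⟩⟩)⟩
      · exact Or.inr ⟨hy', hy, Or.inr (Or.inl ⟨x', x, hx', hx, Or.inl h⟩)⟩
    · exact Or.inl ⟨hy, hy', Or.inl ⟨hA, hA'⟩⟩
  · by_cases hA' : InA H P R D Y.1 σ n y'
    · exact Or.inr ⟨hy', hy, Or.inl ⟨hA', hA⟩⟩
    · obtain ⟨x, hx⟩ := KB_exists H P R D Y hPO hy hA
      obtain ⟨x', hx'⟩ := KB_exists H P R D Y hPO hy' hA'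
      rcases lt_trichotomy x x' with h | h | h
      · exact Or.inr ⟨hy', hy, Or.inr (Or.inr ⟨⟨hA', hA⟩, x', x, hx', hx, Or.inl h⟩)⟩
      · subst h
        by_cases h1 : y = x
        · exact Or.inl ⟨hy, hy', Or.inr (Or.inr ⟨⟨hA, hA'⟩, x, x, hx, hx',
            Or.inr ⟨rfl, Or.inl h1⟩⟩)⟩
        · by_cases h2 : y' = x
          · exact Or.inr ⟨hy', hy, Or.inr (Or.inr ⟨⟨hA', hA⟩, x, x, hx', hx,
              Or.inr ⟨rfl, Or.inl h2⟩⟩)⟩
          · rcases (hR' H P R D Y hPO hR hx).total y y' ⟨hy, hx.1.2, fun h => h1 h.symm⟩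
              ⟨hy', hx'.1.2, fun h => h2 h.symm⟩ with h | h
            · exact Or.inl ⟨hy, hy', Or.inr (Or.inr ⟨⟨hA, hA'⟩, x, x, hx, hx',
                Or.inr ⟨rfl, Or.inr h⟩⟩)⟩
            · exact Or.inr ⟨hy', hy, Or.inr (Or.inr ⟨⟨hA', hA⟩, x, x, hx', hx,
                Or.inr ⟨rfl, Or.inr h⟩⟩)⟩
      · exact Or.inl ⟨hy, hy', Or.inr (Or.inr ⟨⟨hA, hA'⟩, x, x', hx, hx', Or.inl h⟩)⟩

include hPO hL hR in
theorem rel2_antisymm {y y' : M} (h : Rel2 H P R D Y σ n y y')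
    (h' : Rel2 H P R D Y σ n y' y) : y = y' := by
  obtain ⟨hy, hy', h⟩ := h
  obtain ⟨-, -, h'⟩ := h'
  rcases h with h | ⟨x1, x2, hx1, hx2, h⟩ | ⟨⟨hA, hA'⟩, x1, x2, hx1, hx2, h⟩
  · rcases h' with h' | ⟨z1, z2, hz1, hz2, -⟩ | ⟨⟨hB, hB'⟩, -⟩
    · exact absurd h'.1 h.2
    · exact absurd (hz1.inA H P R D Y) h.2
    · exact absurd h.1 hB'
  · rcases h' with h' | ⟨z1, z2, hz1, hz2, h'⟩ | ⟨⟨hB, hB'⟩, -⟩
    · exact absurd (hx1.inA H P R D Y) h'.2
    · have e1 := KA_unique H P R D Y hx1 hz2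
      have e2 := KA_unique H P R D Y hx2 hz1
      subst e1 e2
      rcases h with h | ⟨h1, h2⟩
      · rcases h' with h' | ⟨h1', -⟩
        · exact absurd (h.trans h') (lt_irrefl _)
        · exact absurd h1'.symm h.ne
      · subst h1
        rcases h' with h' | ⟨-, h2'⟩
        · exact absurd h' (lt_irrefl _)
        · have hlin := hL x1 hx1.1.1
          rcases h2 with h2 | h2
          · rcases h2' with h2' | h2'
            · rw [h2, h2']
            · exact absurd h2 ((hlin.sub _ _ h2').1.2).2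
          · rcases h2' with h2' | h2'
            · exact absurd h2' ((hlin.sub _ _ h2).1.2).2
            · exact hlin.antisymm _ _ h2 h2'
    · exact absurd (hx1.inA H P R D Y) hB'
  · rcases h' with h' | ⟨z1, z2, hz1, hz2, h'⟩ | ⟨⟨hB, hB'⟩, z1, z2, hz1, hz2, h'⟩
    · exact absurd h'.1 hA'
    · exact absurd (hz1.inA H P R D Y) hA'
    · have e1 := KB_unique H P R D Y hx1 hz2
      have e2 := KB_unique H P R D Y hx2 hz1
      subst e1 e2
      rcases h with h | ⟨h1, h2⟩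
      · rcases h' with h' | ⟨h1', -⟩
        · exact absurd (h.trans h') (lt_irrefl _)
        · exact absurd h1' h.ne
      · subst h1
        rcases h' with h' | ⟨-, h2'⟩
        · exact absurd h' (lt_irrefl _)
        · have hlin := hR' H P R D Y hPO hR hx1
          rcases h2 with h2 | h2
          · rcases h2' with h2' | h2'
            · rw [h2, h2']
            · exact absurd h2.symm ((hlin.sub _ _ h2').2.2).2
          · rcases h2' with h2' | h2'
            · exact absurd h2'.symm ((hlin.sub _ _ h2).2.2).2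
            · exact hlin.antisymm _ _ h2 h2'

include hPO hL hR in
theorem rel2_trans {y1 y2 y3 : M} (h : Rel2 H P R D Y σ n y1 y2)
    (h' : Rel2 H P R D Y σ n y2 y3) : Rel2 H P R D Y σ n y1 y3 := by
  obtain ⟨hy1, hy2, h⟩ := h
  obtain ⟨-, hy3, h'⟩ := h'
  refine ⟨hy1, hy3, ?_⟩
  rcases h with h | ⟨x1, x2, hx1, hx2, h⟩ | ⟨⟨hA, hA'⟩, x1, x2, hx1, hx2, h⟩
  · rcases h' with h' | ⟨z1, z2, hz1, hz2, -⟩ | ⟨⟨hB, hB'⟩, -⟩
    · exact absurd h'.1 h.2
    · exact absurd (hz1.inA H P R D Y) h.2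
    · exact Or.inl ⟨h.1, hB'⟩
  · rcases h' with h' | ⟨z1, z2, hz1, hz2, h'⟩ | ⟨⟨hB, hB'⟩, -⟩
    · exact Or.inl ⟨hx1.inA H P R D Y, h'.2⟩
    · have e1 := KA_unique H P R D Y hx2 hz1
      subst e1
      refine Or.inr (Or.inl ⟨x1, z2, hx1, hz2, ?_⟩)
      rcases h with h | ⟨h1, h2⟩
      · rcases h' with h' | ⟨h1', -⟩
        · exact Or.inl (h.trans h')
        · subst h1'
          exact Or.inl h
      · subst h1
        rcases h' with h' | ⟨h1', h2'⟩
        · exact Or.inl h'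
        · subst h1'
          refine Or.inr ⟨rfl, ?_⟩
          have hlin := hL x1 hx1.1.1
          rcases h2' with h2' | h2'
          · exact Or.inl h2'
          · rcases h2 with h2 | h2
            · exact absurd h2 ((hlin.sub _ _ h2').1.2).2
            · exact Or.inr (hlin.trans _ _ _ h2 h2')
    · exact absurd (hx2.inA H P R D Y) hB
  · rcases h' with h' | ⟨z1, z2, hz1, hz2, h'⟩ | ⟨⟨hB, hB'⟩, z1, z2, hz1, hz2, h'⟩
    · exact absurd h'.1 hA'
    · exact absurd (hz1.inA H P R D Y) hA'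
    · have e1 := KB_unique H P R D Y hx2 hz1
      subst e1
      refine Or.inr (Or.inr ⟨⟨hA, hB'⟩, x1, z2, hx1, hz2, ?_⟩)
      rcases h with h | ⟨h1, h2⟩
      · rcases h' with h' | ⟨h1', -⟩
        · exact Or.inl (h'.trans h)
        · subst h1'
          exact Or.inl h
      · subst h1
        rcases h' with h' | ⟨h1', h2'⟩
        · exact Or.inl h'
        · subst h1'
          refine Or.inr ⟨rfl, ?_⟩
          have hlin := hR' H P R D Y hPO hR hx1
          rcases h2 with h2 | h2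
          · exact Or.inl h2
          · rcases h2' with h2' | h2'
            · exact absurd h2'.symm ((hlin.sub _ _ h2).2.2).2
            · exact Or.inr (hlin.trans _ _ _ h2 h2')

include hPO hL hR in
theorem rel2_ext {y y' : M} (hy : Gap H P R D σ n y) (hy' : Gap H P R D σ n y')
    (h : pair y y' ∈ R.1) : Rel2 H P R D Y σ n y y' := by
  refine ⟨hy, hy', ?_⟩
  by_cases hA : InA H P R D Y.1 σ n y
  · by_cases hA' : InA H P R D Y.1 σ n y'
    · obtain ⟨x, hx⟩ := KA_exists H P R D Y hA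
      obtain ⟨x', hx'⟩ := KA_exists H P R D Y hA'
      have hle : x ≤ x' := hx.2 x' ⟨hx'.1.1, hPO.2.2.1 _ _ _ h hx'.1.2⟩
      refine Or.inr (Or.inl ⟨x, x', hx, hx', ?_⟩)
      rcases lt_or_eq_of_le hle with hlt | heq
      · exact Or.inl hlt
      · subst heq
        refine Or.inr ⟨rfl, ?_⟩
        by_cases h1 : y' = x
        · exact Or.inl h1
        · right
          have hy'x : PLt R y' x := ⟨hx'.1.2, h1⟩
          exact (hL x hx.1.1).ext y y' ⟨hy, PLt.le_trans P R hPO h hy'x⟩ ⟨hy', hy'x⟩ h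
    · exact Or.inl ⟨hA, hA'⟩
  · have hA' : ¬ InA H P R D Y.1 σ n y' := fun h' => hA (inA_down H P R D Y hPO h h')
    obtain ⟨x, hx⟩ := KB_exists H P R D Y hPO hy hA
    obtain ⟨x', hx'⟩ := KB_exists H P R D Y hPO hy' hA'
    have hle : x' ≤ x := hx'.2 x ⟨hx.1.1, hPO.2.2.1 _ _ _ hx.1.2 h⟩
    refine Or.inr (Or.inr ⟨⟨hA, hA'⟩, x, x', hx, hx', ?_⟩)
    rcases lt_or_eq_of_le hle with hlt | heq
    · exact Or.inl hlt
    · subst heq
      refine Or.inr ⟨rfl, ?_⟩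
      by_cases h1 : y = x'
      · exact Or.inl h1
      · right
        have hxy : PLt R x' y := ⟨hx.1.2, fun h => h1 h.symm⟩
        exact (hR' H P R D Y hPO hR hx).ext y y' ⟨hy, hxy⟩
          ⟨hy', PLt.trans_le P R hPO hxy h⟩ h

end

end Pool.Agent.Work.MP_4ee3e3_lc
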