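import Pool.Agent.Work.MP_4ee3e3_lc.Recursion

/-!
# Coded finite sequences and the Kleene-Brouwer order
-/

set_option autoImplicit false
set_option linter.unusedSectionVars false

namespace Pool.Agent.Work.MP_4ee3e3_lc

universe u

variable {M : Type u} [CommSemiring M] [LinearOrder M] [IsStrictOrderedRing M] {S : Set (Set M)}

/-- the coded list with first element `x` and tail `l`; the empty list is `0` -/
def cons (x l : M) : M := pair x l + 1

instance tf_cons (f g : Ctx M → M) [hf : Tf f] [hg : Tf g] :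
    Tf (M := M) (fun c => cons (f c) (g c)) := by
  unfold cons
  infer_instance

theorem cons_ne_zero (H : IsModelATR0 S) (x l : M) : cons x l ≠ 0 := H.succ_ne_zero _

theorem cons_inj (H : IsModelATR0 S) {x l y m : M} : cons x l = cons y m ↔ x = y ∧ l = m := by
  unfold cons
  constructor
  · intro h
    exact H.pair_inj.1 (H.succ_inj _ _ h)
  · rintro ⟨rfl, rfl⟩
    rfl

theorem tail_lt (H : IsModelATR0 S) (x l : M) : l < cons x l :=
  (H.lt_succ_iff _ _).2 (H.le_pair_right x l)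

theorem exists_ext (H : IsModelATR0 S) : ∃ E : ↥S, ∀ τ σ, pair τ σ ∈ E.1 ↔
    (τ = σ ∨ ∃ x ρ, σ = cons x ρ ∧ pair τ ρ ∈ E.1) := by
  obtain ⟨E, hE⟩ := rec_nat H
    (fun τ σ Z => τ = σ ∨ ∃ x ρ, σ = cons x ρ ∧ pair τ ρ ∈ Z) (by infer_instance)
  refine ⟨E, fun τ σ => ?_⟩
  rw [hE]
  constructor
  · rintro (h | ⟨x, ρ, h1, h2⟩)
    · exact Or.inl h
    · rw [mem_belowN H] at h2
      exact Or.inr ⟨x, ρ, h1, h2.2⟩
  · rintro (h | ⟨x, ρ, h1, h2⟩)
    · exact Or.inl h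
    · refine Or.inr ⟨x, ρ, h1, ?_⟩
      rw [mem_belowN H]
      refine ⟨?_, h2⟩
      rw [h1]
      exact tail_lt H x ρ

/-- the set coding the tail relation -/
noncomputable def extS (H : IsModelATR0 S) : ↥S := (exists_ext H).choose

/-- the list `σ` extends the list `τ` (`τ` is a tail of `σ`) -/
abbrev Ext (H : IsModelATR0 S) (σ τ : M) : Prop := pair τ σ ∈ (extS H).1

variable (H : IsModelATR0 S)

theorem ext_iff (σ τ : M) : Ext H σ τ ↔ τ = σ ∨ ∃ x ρ, σ = cons x ρ ∧ Ext H ρ τ :=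
  (exists_ext H).choose_spec τ σ

theorem ext_refl (σ : M) : Ext H σ σ := (ext_iff H σ σ).2 (Or.inl rfl)

theorem ext_cons {x ρ τ : M} (h : Ext H ρ τ) : Ext H (cons x ρ) τ :=
  (ext_iff H _ _).2 (Or.inr ⟨x, ρ, rfl, h⟩)

theorem ext_cons_iff (x ρ τ : M) : Ext H (cons x ρ) τ ↔ τ = cons x ρ ∨ Ext H ρ τ := by
  rw [ext_iff]
  constructor
  · rintro (h | ⟨y, ρ', h1, h2⟩)
    · exact Or.inl h
    · rw [cons_inj H] at h1
      obtain ⟨rfl, rfl⟩ := h1
      exact Or.inr h2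
  · rintro (h | h)
    · exact Or.inl h
    · exact Or.inr ⟨x, ρ, rfl, h⟩

theorem ext_le : ∀ σ τ : M, Ext H σ τ → τ ≤ σ := by
  apply H.sind (fun σ => ∀ τ : M, Ext H σ τ → τ ≤ σ)
  intro σ ih τ h
  rw [ext_iff] at h
  rcases h with h | ⟨x, ρ, h1, h2⟩
  · exact h.le
  · have hlt : ρ < σ := by
      rw [h1]
      exact tail_lt H x ρ
    exact (ih ρ hlt τ h2).trans hlt.le

theorem ext_trans : ∀ σ τ ρ : M, Ext H σ τ → Ext H τ ρ → Ext H σ ρ := by
  apply H.sind (fun σ => ∀ τ ρ : M, Ext H σ τ → Ext H τ ρ → Ext H σ ρ)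
  intro σ ih τ ρ h h'
  rw [ext_iff] at h
  rcases h with h | ⟨x, ρ', h1, h2⟩
  · subst h
    exact h'
  · have hlt : ρ' < σ := by
      rw [h1]
      exact tail_lt H x ρ'
    rw [h1]
    exact ext_cons H (ih ρ' hlt τ ρ h2 h')

theorem ext_total : ∀ σ ρ ρ' : M, Ext H σ ρ → Ext H σ ρ' → Ext H ρ ρ' ∨ Ext H ρ' ρ := by
  apply H.sind (fun σ => ∀ ρ ρ' : M, Ext H σ ρ → Ext H σ ρ' → Ext H ρ ρ' ∨ Ext H ρ' ρ)
  intro σ ih ρ ρ' h h'
  have h0 := h
  have h0' := h'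
  rw [ext_iff] at h h'
  rcases h with h | ⟨x, ρ1, h1, h2⟩
  · subst h
    exact Or.inl h0'
  · rcases h' with h' | ⟨y, ρ2, h3, h4⟩
    · subst h'
      exact Or.inr h0
    · rw [h1, cons_inj H] at h3
      obtain ⟨-, rfl⟩ := h3
      have hlt : ρ1 < σ := by
        rw [h1]
        exact tail_lt H x ρ1
      exact ih ρ1 hlt ρ ρ' h2 h4

theorem not_ext_cons (x ρ : M) : ¬ Ext H ρ (cons x ρ) := fun h =>
  absurd (ext_le H _ _ h) (not_le.2 (tail_lt H x ρ))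

theorem ext_antisymm {σ τ : M} (h : Ext H σ τ) (h' : Ext H τ σ) : σ = τ :=
  le_antisymm (ext_le H _ _ h') (ext_le H _ _ h)

theorem next_unique {σ ρ x y : M} (h : Ext H σ (cons x ρ)) (h' : Ext H σ (cons y ρ)) : x = y := by
  rcases ext_total H _ _ _ h h' with h1 | h1
  · rw [ext_cons_iff, cons_inj H] at h1
    rcases h1 with h1 | h1
    · exact h1.1.symm
    · exact absurd h1 (not_ext_cons H _ _)
  · rw [ext_cons_iff, cons_inj H] at h1
    rcases h1 with h1 | h1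
    · exact h1.1
    · exact absurd h1 (not_ext_cons H _ _)

theorem proper_ext : ∀ τ σ : M, Ext H τ σ → τ ≠ σ → ∃ y, Ext H τ (cons y σ) := by
  apply H.sind (fun τ => ∀ σ : M, Ext H τ σ → τ ≠ σ → ∃ y, Ext H τ (cons y σ))
  intro τ ih σ h hne
  rw [ext_iff] at h
  rcases h with h | ⟨x, ρ, h1, h2⟩
  · exact absurd h.symm hne
  · by_cases hρ : ρ = σ
    · subst hρ
      exact ⟨x, by rw [h1]; exact ext_refl H _⟩
    · have hlt : ρ < τ := by
        rw [h1]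
        exact tail_lt H x ρ
      obtain ⟨y, hy⟩ := ih ρ hlt σ h2 hρ
      exact ⟨y, by rw [h1]; exact ext_cons H hy⟩

/-! ### length -/

theorem exists_len (H : IsModelATR0 S) : ∃ L : ↥S, ∀ n σ, pair n σ ∈ L.1 ↔
    ((σ = 0 ∧ n = 0) ∨ ∃ x ρ, σ = cons x ρ ∧ ∃ m, n = m + 1 ∧ pair m ρ ∈ L.1) := by
  obtain ⟨E, hE⟩ := rec_nat H
    (fun n σ Z => (σ = 0 ∧ n = 0) ∨ ∃ x ρ, σ = cons x ρ ∧ ∃ m, n = m + 1 ∧ pair m ρ ∈ Z)
    (by infer_instance)
  refine ⟨E, fun τ σ => ?_⟩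
  rw [hE]
  constructor
  · rintro (h | ⟨x, ρ, h1, m, h2, h3⟩)
    · exact Or.inl h
    · rw [mem_belowN H] at h3
      exact Or.inr ⟨x, ρ, h1, m, h2, h3.2⟩
  · rintro (h | ⟨x, ρ, h1, m, h2, h3⟩)
    · exact Or.inl h
    · refine Or.inr ⟨x, ρ, h1, m, h2, ?_⟩
      rw [mem_belowN H]
      refine ⟨?_, h3⟩
      rw [h1]
      exact tail_lt H x ρ

/-- the set coding the length function -/
noncomputable def lenS (H : IsModelATR0 S) : ↥S := (exists_len H).choose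

/-- `σ` codes a list of length `n` -/
abbrev Len (H : IsModelATR0 S) (σ n : M) : Prop := pair n σ ∈ (lenS H).1

theorem len_iff (σ n : M) : Len H σ n ↔
    (σ = 0 ∧ n = 0) ∨ ∃ x ρ, σ = cons x ρ ∧ ∃ m, n = m + 1 ∧ Len H ρ m :=
  (exists_len H).choose_spec n σ

theorem len_zero : Len H 0 0 := (len_iff H 0 0).2 (Or.inl ⟨rfl, rfl⟩)

theorem len_cons_iff (x ρ n : M) : Len H (cons x ρ) n ↔ ∃ m, n = m + 1 ∧ Len H ρ m := by
  rw [len_iff]
  constructor
  · rintro (⟨h, -⟩ | ⟨y, ρ', h1, h2⟩)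
    · exact absurd h (cons_ne_zero H x ρ)
    · rw [cons_inj H] at h1
      obtain ⟨rfl, rfl⟩ := h1
      exact h2
  · intro h
    exact Or.inr ⟨x, ρ, rfl, h⟩

theorem len_cons {x ρ n : M} (h : Len H ρ n) : Len H (cons x ρ) (n + 1) :=
  (len_cons_iff H _ _ _).2 ⟨n, rfl, h⟩

theorem len_zero_left {n : M} (h : Len H 0 n) : n = 0 := by
  rw [len_iff] at h
  rcases h with h | ⟨x, ρ, h, -⟩
  · exact h.2
  · exact absurd h.symm (cons_ne_zero H x ρ)

theorem len_zero_right {σ : M} (h : Len H σ 0) : σ = 0 := by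
  rw [len_iff] at h
  rcases h with h | ⟨x, ρ, -, m, h, -⟩
  · exact h.1
  · exact absurd h.symm (H.succ_ne_zero m)

theorem len_unique : ∀ σ n m : M, Len H σ n → Len H σ m → n = m := by
  apply H.sind (fun σ => ∀ n m : M, Len H σ n → Len H σ m → n = m)
  intro σ ih n m h h'
  rw [len_iff] at h h'
  rcases h with ⟨h1, h2⟩ | ⟨x, ρ, h1, k, h2, h3⟩
  · rcases h' with ⟨h1', h2'⟩ | ⟨x', ρ', h1', -⟩
    · rw [h2, h2']
    · rw [h1] at h1'
      exact absurd h1'.symm (cons_ne_zero H _ _)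
  · rcases h' with ⟨h1', -⟩ | ⟨x', ρ', h1', k', h2', h3'⟩
    · rw [h1] at h1'
      exact absurd h1' (cons_ne_zero H _ _)
    · rw [h1, cons_inj H] at h1'
      obtain ⟨rfl, rfl⟩ := h1'
      have hlt : ρ < σ := by
        rw [h1]
        exact tail_lt H x ρ
      rw [h2, h2', ih ρ hlt k k' h3 h3']

theorem len_ext : ∀ σ τ n : M, Ext H σ τ → Len H σ n → ∃ m, m ≤ n ∧ Len H τ m := by
  apply H.sind (fun σ => ∀ τ n : M, Ext H σ τ → Len H σ n → ∃ m, m ≤ n ∧ Len H τ m)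
  intro σ ih τ n h hn
  rw [ext_iff] at h
  rcases h with h | ⟨x, ρ, h1, h2⟩
  · subst h
    exact ⟨n, le_rfl, hn⟩
  · have hlt : ρ < σ := by
      rw [h1]
      exact tail_lt H x ρ
    rw [h1, len_cons_iff] at hn
    obtain ⟨k, hk, hρ⟩ := hn
    obtain ⟨m, hm, hτ⟩ := ih ρ hlt τ k h2 hρ
    refine ⟨m, ?_, hτ⟩
    rw [hk]
    exact hm.trans ((H.lt_succ_iff k k).2 le_rfl).le

theorem ext_len_eq {σ τ n : M} (h : Ext H σ τ) (hσ : Len H σ n) (hτ : Len H τ n) : σ = τ := by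
  by_contra hne
  obtain ⟨y, hy⟩ := proper_ext H σ τ h hne
  obtain ⟨m, hm, hl⟩ := len_ext H _ _ _ hy hσ
  have := len_unique H _ _ _ hl (len_cons H (x := y) hτ)
  rw [this, H.succ_le_iff] at hm
  exact lt_irrefl _ hm

theorem ext_nil : ∀ σ n : M, Len H σ n → Ext H σ 0 := by
  apply H.sind (fun σ => ∀ n : M, Len H σ n → Ext H σ 0)
  intro σ ih n hn
  rw [len_iff] at hn
  rcases hn with ⟨h1, -⟩ | ⟨x, ρ, h1, k, h2, h3⟩
  · rw [h1]
    exact ext_refl H 0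
  · have hlt : ρ < σ := by
      rw [h1]
      exact tail_lt H x ρ
    rw [h1]
    exact ext_cons H (ih ρ hlt k h3)

theorem ext_of_len : ∀ σ n m : M, Len H σ n → m ≤ n → ∃ τ, Ext H σ τ ∧ Len H τ m := by
  apply H.sind (fun σ => ∀ n m : M, Len H σ n → m ≤ n → ∃ τ, Ext H σ τ ∧ Len H τ m)
  intro σ ih n m hn hm
  rcases eq_or_lt_of_le hm with hm | hm
  · subst hm
    exact ⟨σ, ext_refl H σ, hn⟩
  · rw [len_iff] at hn
    rcases hn with ⟨h1, h2⟩ | ⟨x, ρ, h1, k, h2, h3⟩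
    · rw [h2] at hm
      exact absurd hm (H.not_lt_zero m)
    · have hlt : ρ < σ := by
        rw [h1]
        exact tail_lt H x ρ
      rw [h2, H.lt_succ_iff] at hm
      obtain ⟨τ, h4, h5⟩ := ih ρ hlt k m h3 hm
      refine ⟨τ, ?_, h5⟩
      rw [h1]
      exact ext_cons H h4

theorem first_difference : ∀ σ τ n m : M, Len H σ n → Len H τ m →
    Ext H σ τ ∨ Ext H τ σ ∨ ∃ ρ x y, x ≠ y ∧ Ext H σ (cons x ρ) ∧ Ext H τ (cons y ρ) := by
  apply H.sind (fun σ => ∀ τ n m : M, Len H σ n → Len H τ m →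
    Ext H σ τ ∨ Ext H τ σ ∨ ∃ ρ x y, x ≠ y ∧ Ext H σ (cons x ρ) ∧ Ext H τ (cons y ρ))
  intro σ ih τ n m hσ hτ
  rw [len_iff] at hσ
  rcases hσ with ⟨h1, h2⟩ | ⟨x, σ', h1, k, h2, h3⟩
  · rw [h1]
    exact Or.inr (Or.inl (ext_nil H τ m hτ))
  · have hlt : σ' < σ := by
      rw [h1]
      exact tail_lt H x σ'
    rcases ih σ' hlt τ k m h3 hτ with h | h | ⟨ρ, a, b, hab, ha, hb⟩
    · left
      rw [h1]
      exact ext_cons H h
    · by_cases hτσ : τ = σ'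
      · left
        rw [hτσ, h1]
        exact ext_cons H (ext_refl H σ')
      · obtain ⟨y, hy⟩ := proper_ext H τ σ' h hτσ
        right
        by_cases hyx : y = x
        · left
          rw [h1, ← hyx]
          exact hy
        · right
          refine ⟨σ', x, y, fun h => hyx h.symm, ?_, hy⟩
          rw [h1]
          exact ext_refl H _
    · right
      right
      refine ⟨ρ, a, b, hab, ?_, hb⟩
      rw [h1]
      exact ext_cons H ha

/-! ### Kleene-Brouwer order -/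

/-- `σ` is to the left of `τ` -/
abbrev Left (H : IsModelATR0 S) (σ τ : M) : Prop :=
  ∃ ρ x y, x < y ∧ Ext H σ (cons x ρ) ∧ Ext H τ (cons y ρ)

theorem left_of_ext {σ σ' τ τ' : M} (h : Left H σ τ) (hσ : Ext H σ' σ) (hτ : Ext H τ' τ) :
    Left H σ' τ' := by
  obtain ⟨ρ, x, y, hxy, h1, h2⟩ := h
  exact ⟨ρ, x, y, hxy, ext_trans H _ _ _ hσ h1, ext_trans H _ _ _ hτ h2⟩

theorem not_left_self {σ : M} : ¬ Left H σ σ := by
  rintro ⟨ρ, x, y, hxy, h1, h2⟩
  exact absurd (next_unique H h1 h2) hxy.ne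

theorem left_trans {a b c : M} (hab : Left H a b) (hbc : Left H b c) : Left H a c := by
  obtain ⟨ρ, x, y, hxy, h1, h2⟩ := hab
  obtain ⟨ρ', x', y', hxy', h1', h2'⟩ := hbc
  rcases ext_total H _ _ _ h2 h1' with h | h
  · -- `cons y ρ` extends `cons x' ρ'`
    rw [ext_cons_iff, cons_inj H] at h
    rcases h with ⟨h, h'⟩ | h
    · subst h h'
      exact ⟨ρ', x, y', hxy.trans hxy', h1, h2'⟩
    · exact ⟨ρ', x', y', hxy', ext_trans H _ _ _ h1 (ext_cons H h), h2'⟩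
  · rw [ext_cons_iff, cons_inj H] at h
    rcases h with ⟨h, h'⟩ | h
    · subst h h'
      exact ⟨ρ, x, y', hxy.trans hxy', h1, h2'⟩
    · exact ⟨ρ, x, y, hxy, h1, ext_trans H _ _ _ h2' (ext_cons H h)⟩

/-- the Kleene-Brouwer order -/
abbrev KBle (H : IsModelATR0 S) (σ τ : M) : Prop := Ext H σ τ ∨ Left H σ τ

theorem kb_trans {a b c : M} (hab : KBle H a b) (hbc : KBle H b c) : KBle H a c := by
  rcases hab with hab | hab
  · rcases hbc with hbc | hbc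
    · exact Or.inl (ext_trans H _ _ _ hab hbc)
    · exact Or.inr (left_of_ext H hbc hab (ext_refl H _))
  · rcases hbc with hbc | hbc
    · obtain ⟨ρ, x, y, hxy, h1, h2⟩ := hab
      rcases ext_total H _ _ _ h2 hbc with h | h
      · rw [ext_cons_iff] at h
        rcases h with h | h
        · right
          exact ⟨ρ, x, y, hxy, h1, by rw [h]; exact ext_refl H _⟩
        · left
          exact ext_trans H _ _ _ h1 (ext_cons H h)
      · exact Or.inr ⟨ρ, x, y, hxy, h1, h⟩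
    · exact Or.inr (left_trans H hab hbc)

theorem kb_antisymm {a b : M} (hab : KBle H a b) (hba : KBle H b a) : a = b := by
  rcases hab with hab | hab
  · rcases hba with hba | hba
    · exact ext_antisymm H hab hba
    · exact absurd (left_of_ext H hba hab (ext_refl H _)) (not_left_self H)
  · rcases hba with hba | hba
    · exact absurd (left_of_ext H hab hba (ext_refl H _)) (not_left_self H)
    · exact absurd (left_trans H hab hba) (not_left_self H)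

theorem kb_total {a b n m : M} (ha : Len H a n) (hb : Len H b m) : KBle H a b ∨ KBle H b a := by
  rcases first_difference H a b n m ha hb with h | h | ⟨ρ, x, y, hxy, h1, h2⟩
  · exact Or.inl (Or.inl h)
  · exact Or.inr (Or.inl h)
  · rcases lt_or_gt_of_ne hxy with h | h
    · exact Or.inl (Or.inr ⟨ρ, x, y, h, h1, h2⟩)
    · exact Or.inr (Or.inr ⟨ρ, y, x, h, h2, h1⟩)

/-- `T` is a tree of coded lists -/
structure IsTree (H : IsModelATR0 S) (T : ↥S) : Prop where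
  len : ∀ σ, σ ∈ T.1 → ∃ n, Len H σ n
  tail : ∀ σ τ, σ ∈ T.1 → Ext H σ τ → τ ∈ T.1

/-- `U` is (the set of initial segments of) an infinite path -/
structure IsPath (H : IsModelATR0 S) (T U : ↥S) : Prop where
  sub : ∀ σ, σ ∈ U.1 → σ ∈ T.1
  len : ∀ n, ∃ σ, σ ∈ U.1 ∧ Len H σ n
  comp : ∀ σ τ, σ ∈ U.1 → τ ∈ U.1 → Ext H σ τ ∨ Ext H τ σ

/-- the Kleene-Brouwer order on a tree, as a set -/
noncomputable def KB (H : IsModelATR0 S) (T : ↥S) : ↥S :=
  mk2 H (fun σ τ => σ ∈ T.1 ∧ τ ∈ T.1 ∧ KBle H σ τ)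

theorem mem_KB (T : ↥S) (σ τ : M) :
    pair σ τ ∈ (KB H T).1 ↔ σ ∈ T.1 ∧ τ ∈ T.1 ∧ KBle H σ τ := mem_mk2 H _ σ τ

theorem fld_KB (T : ↥S) (σ : M) : Fld (KB H T).1 σ ↔ σ ∈ T.1 := by
  unfold Fld
  rw [mem_KB]
  exact ⟨fun h => h.1, fun h => ⟨h, h, Or.inl (ext_refl H σ)⟩⟩

theorem lt_KB (T : ↥S) (σ τ : M) :
    LtIn (KB H T).1 σ τ ↔ σ ∈ T.1 ∧ τ ∈ T.1 ∧ KBle H σ τ ∧ σ ≠ τ := by
  unfold LtIn
  rw [mem_KB, mem_KB]
  constructor
  · rintro ⟨⟨h1, h2, h3⟩, h4⟩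
    refine ⟨h1, h2, h3, ?_⟩
    rintro rfl
    exact h4 ⟨h1, h2, h3⟩
  · rintro ⟨h1, h2, h3, h4⟩
    exact ⟨⟨h1, h2, h3⟩, fun h => h4 (kb_antisymm H h3 h.2.2)⟩

theorem KB_lo (T : ↥S) (hT : IsTree H T) : IsLO (KB H T).1 := by
  refine ⟨?_, ?_, ?_, ?_⟩
  · intro i j h
    rw [mem_KB] at h
    rw [fld_KB, fld_KB]
    exact ⟨h.1, h.2.1⟩
  · intro i j k h1 h2
    rw [mem_KB] at *
    exact ⟨h1.1, h2.2.1, kb_trans H h1.2.2 h2.2.2⟩
  · intro i j h1 h2
    rw [mem_KB] at *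
    exact kb_antisymm H h1.2.2 h2.2.2
  · intro i j hi hj
    rw [fld_KB] at hi hj
    rw [mem_KB, mem_KB]
    obtain ⟨n, hn⟩ := hT.len i hi
    obtain ⟨m, hm⟩ := hT.len j hj
    rcases kb_total H hn hm with h | h
    · exact Or.inl ⟨hi, hj, h⟩
    · exact Or.inr ⟨hj, hi, h⟩

/-- If `T` has no infinite path, its Kleene-Brouwer order is a well-order. -/
theorem KB_wo (T : ↥S) (hT : IsTree H T) (hpath : ¬ ∃ U : ↥S, IsPath H T U) :
    IsWO S (KB H T).1 := by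
  refine ⟨KB_lo H T hT, ?_⟩
  rintro ⟨F0, hF0, hfun, hdesc0⟩
  apply hpath
  let F : ↥S := ⟨F0, hF0⟩
  have hdesc : ∀ n a b, pair n a ∈ F.1 → pair (n + 1) b ∈ F.1 →
      b ∈ T.1 ∧ a ∈ T.1 ∧ KBle H b a ∧ b ≠ a := by
    intro n a b ha hb
    exact (lt_KB H T b a).1 (hdesc0 n a b ha hb)
  -- the sequence is strictly decreasing
  have hdec : ∀ n, ∀ m, ∀ a b, m ≤ n → pair m a ∈ F.1 → pair (n + 1) b ∈ F.1 →
      KBle H b a ∧ b ≠ a := by
    apply H.ind (fun n => ∀ m, ∀ a b, m ≤ n → pair m a ∈ F.1 → pair (n + 1) b ∈ F.1 →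
      KBle H b a ∧ b ≠ a)
    · intro m a b hm ha hb
      have : m = 0 := le_antisymm hm (H.zero_le m)
      subst this
      exact (hdesc 0 a b ha hb).2.2
    · intro n ih m a b hm ha hb
      rcases eq_or_lt_of_le hm with hm | hm
      · subst hm
        exact (hdesc _ a b ha hb).2.2
      · rw [H.lt_succ_iff] at hm
        obtain ⟨c, hc, -⟩ := hfun (n + 1)
        have h1 := ih m a c hm ha hc
        have h2 := (hdesc (n + 1) c b hc hb).2.2
        refine ⟨kb_trans H h2.1 h1.1, ?_⟩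
        rintro rfl
        exact h2.2 (kb_antisymm H h2.1 h1.1)
  have hdec' : ∀ m n, m < n → ∀ a b, pair m a ∈ F.1 → pair n b ∈ F.1 → KBle H b a ∧ b ≠ a := by
    intro m n hmn a b ha hb
    rcases H.zero_or_succ n with rfl | ⟨k, rfl⟩
    · exact absurd hmn (H.not_lt_zero m)
    · exact hdec k m a b ((H.lt_succ_iff _ _).1 hmn) ha hb
  have hFT : ∀ n a, pair n a ∈ F.1 → a ∈ T.1 := by
    intro n a ha
    obtain ⟨b, hb, -⟩ := hfun (n + 1)
    exact (hdesc n a b ha hb).2.1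
  refine ⟨mk1 H (fun τ => τ ∈ T.1 ∧ ∃ n, ∀ m, n ≤ m → ∀ s, pair m s ∈ F.1 → Ext H s τ), ?_⟩
  refine ⟨fun σ h => h.1, ?_, ?_⟩
  · apply H.ind (fun k => ∃ τ, (τ ∈ T.1 ∧ ∃ n, ∀ m, n ≤ m → ∀ s, pair m s ∈ F.1 → Ext H s τ) ∧
      Len H τ k)
    · obtain ⟨s, hs, -⟩ := hfun 0
      have hs' := hFT 0 s hs
      obtain ⟨l, hl⟩ := hT.len s hs'
      refine ⟨0, ⟨hT.tail s 0 hs' (ext_nil H s l hl), 0, ?_⟩, len_zero H⟩
      intro m _ s hs
      obtain ⟨l, hl⟩ := hT.len s (hFT m s hs)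
      exact ext_nil H s l hl
    · rintro k ⟨τ, ⟨hτ, n, hn⟩, hl⟩
      -- all later members are proper extensions
      have hproper : ∀ m, n + 1 ≤ m → ∀ s, pair m s ∈ F.1 → ∃ x, Ext H s (cons x τ) := by
        intro m hm s hs
        have hnm : n < m := (H.succ_le_iff _ _).1 hm
        apply proper_ext H s τ (hn m hnm.le s hs)
        rintro rfl
        obtain ⟨a, ha, -⟩ := hfun n
        obtain ⟨h1, h2⟩ := hdec' n m hnm a s ha hs
        exact h2 (kb_antisymm H h1 (Or.inl (hn n le_rfl a ha)))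
      obtain ⟨x, ⟨m0, hm0, s0, hs0, hx0⟩, hmin⟩ := H.least
        (fun x => ∃ m, n + 1 ≤ m ∧ ∃ s, pair m s ∈ F.1 ∧ Ext H s (cons x τ)) (by
          obtain ⟨s, hs, -⟩ := hfun (n + 1)
          obtain ⟨x, hx⟩ := hproper (n + 1) le_rfl s hs
          exact ⟨x, n + 1, le_rfl, s, hs, hx⟩)
      have hall : ∀ m, m0 ≤ m → ∀ s, pair m s ∈ F.1 → Ext H s (cons x τ) := by
        intro m hm s hs
        obtain ⟨x', hx'⟩ := hproper m (hm0.trans hm) s hs
        have hle : x ≤ x' := hmin x' ⟨m, hm0.trans hm, s, hs, hx'⟩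
        rcases eq_or_lt_of_le hle with h | h
        · rw [h]
          exact hx'
        · exfalso
          have hleft : Left H s0 s := ⟨τ, x, x', h, hx0, hx'⟩
          rcases eq_or_lt_of_le hm with h' | h'
          · subst h'
            obtain ⟨y, -, hy⟩ := hfun m0
            rw [hy s hs, hy s0 hs0] at hleft
            exact not_left_self H hleft
          · have h3 := hdec' m0 m h' s0 s hs0 hs
            exact h3.2 (kb_antisymm H h3.1 (Or.inr hleft))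
      refine ⟨cons x τ, ⟨?_, m0, hall⟩, len_cons H hl⟩
      exact hT.tail s0 _ (hFT m0 s0 hs0) hx0
  · rintro σ τ ⟨-, n, hn⟩ ⟨-, n', hn'⟩
    obtain ⟨s, hs, -⟩ := hfun (max n n')
    exact ext_total H s σ τ (hn _ (le_max_left _ _) s hs) (hn' _ (le_max_right _ _) s hs)

end Pool.Agent.Work.MP_4ee3e3_lc
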