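import Pool.Agent.Work.MP_4ee3e3_lc.Lin

/-!
# The recursion along the Kleene-Brouwer order and its invariant
-/

set_option autoImplicit false
set_option linter.unusedSectionVars false

namespace Pool.Agent.Work.MP_4ee3e3_lc

universe u

variable {M : Type u} [CommSemiring M] [LinearOrder M] [IsStrictOrderedRing M] {S : Set (Set M)}

section congr

variable (H : IsModelATR0 S) (P R D : ↥S) {Z Z' : Set M} {σ n : M}
  (h : ∀ x, Gap H P R D σ n x → ∀ y y', Le Z (cons x σ) y y' ↔ Le Z' (cons x σ) y y')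
include h

theorem good_congr (x : M) : Good H P R D Z σ n x ↔ Good H P R D Z' σ n x := by
  unfold Good
  constructor
  · rintro ⟨h1, m, h2, h3⟩
    exact ⟨h1, m, h2, fun y => by rw [← h x h1, h3]⟩
  · rintro ⟨h1, m, h2, h3⟩
    exact ⟨h1, m, h2, fun y => by rw [h x h1, h3]⟩

theorem lft_congr (x : M) : Lft H P R D Z σ n x ↔ Lft H P R D Z' σ n x := by
  unfold Lft
  constructor
  · rintro ⟨h1, h3⟩
    exact ⟨h1, fun y => by rw [← h x h1, h3]⟩
  · rintro ⟨h1, h3⟩
    exact ⟨h1, fun y => by rw [h x h1, h3]⟩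

theorem inA_congr (y : M) : InA H P R D Z σ n y ↔ InA H P R D Z' σ n y := by
  unfold InA
  simp only [lft_congr H P R D h]

theorem ka_congr (y x : M) : KA H P R D Z σ n y x ↔ KA H P R D Z' σ n y x := by
  unfold KA
  simp only [lft_congr H P R D h]

theorem kb_congr (y x : M) : KB' H P R D Z σ n y x ↔ KB' H P R D Z' σ n y x := by
  unfold KB'
  simp only [inA_congr H P R D h]

theorem ord2_congr (y y' : M) : Ord2 H P R D Z σ n y y' ↔ Ord2 H P R D Z' σ n y y' := by
  unfold Ord2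
  simp only [inA_congr H P R D h, ka_congr H P R D h, kb_congr H P R D h]
  constructor
  · rintro (h1 | ⟨x, x', h1, h2, h3⟩ | ⟨h0, x, x', h1, h2, h3⟩)
    · exact Or.inl h1
    · refine Or.inr (Or.inl ⟨x, x', h1, h2, ?_⟩)
      rcases h3 with h3 | ⟨h3, h4 | h4⟩
      · exact Or.inl h3
      · exact Or.inr ⟨h3, Or.inl h4⟩
      · exact Or.inr ⟨h3, Or.inr ((h x h1.1.1.1 y y').1 h4)⟩
    · refine Or.inr (Or.inr ⟨h0, x, x', h1, h2, ?_⟩)
      rcases h3 with h3 | ⟨h3, h4 | h4⟩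
      · exact Or.inl h3
      · exact Or.inr ⟨h3, Or.inl h4⟩
      · exact Or.inr ⟨h3, Or.inr ((h x h1.1.1.1 y y').1 h4)⟩
  · rintro (h1 | ⟨x, x', h1, h2, h3⟩ | ⟨h0, x, x', h1, h2, h3⟩)
    · exact Or.inl h1
    · refine Or.inr (Or.inl ⟨x, x', h1, h2, ?_⟩)
      rcases h3 with h3 | ⟨h3, h4 | h4⟩
      · exact Or.inl h3
      · exact Or.inr ⟨h3, Or.inl h4⟩
      · exact Or.inr ⟨h3, Or.inr ((h x h1.1.1.1 y y').2 h4)⟩
    · refine Or.inr (Or.inr ⟨h0, x, x', h1, h2, ?_⟩)
      rcases h3 with h3 | ⟨h3, h4 | h4⟩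
      · exact Or.inl h3
      · exact Or.inr ⟨h3, Or.inl h4⟩
      · exact Or.inr ⟨h3, Or.inr ((h x h1.1.1.1 y y').2 h4)⟩

end congr

variable (H : IsModelATR0 S) (P R D : ↥S)

/-- The recursion equations. -/
structure IsSol (Y : ↥S) : Prop where
  good : ∀ σ n x, InT H P R D σ → Len H σ n → Good H P R D Y.1 σ n x →
    (∀ x', Good H P R D Y.1 σ n x' → x ≤ x') → ∀ y y', Le Y.1 σ y y' ↔ Le Y.1 (cons x σ) y y'
  other : ∀ σ n, InT H P R D σ → Len H σ n → (¬ ∃ x, Good H P R D Y.1 σ n x) →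
    ∀ y y', Le Y.1 σ y y' ↔ Rel2 H P R D Y σ n y y'

theorem exists_sol (hD : IsStrictLO D) (hWO : IsWO S (KB H (TT H P R D)).1) :
    ∃ Y : ↥S, IsSol H P R D Y := by
  obtain ⟨Y, hY⟩ := atr H (KB H (TT H P R D)) hWO (fun z σ Z => Body H P R D Z z σ)
    (ar_Body H P R D)
  refine ⟨Y, ?_⟩
  have hZ : ∀ σ n, InT H P R D σ → Len H σ n → ∀ x, Gap H P R D σ n x → ∀ y y',
      Le (below (KB H (TT H P R D)).1 Y.1 σ) (cons x σ) y y' ↔ Le Y.1 (cons x σ) y y' := by
    intro σ n hσ hn x hx y y'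
    unfold Le
    rw [mem_below H]
    constructor
    · exact fun h => h.2
    · intro h
      refine ⟨?_, h⟩
      rw [lt_KB]
      refine ⟨(cons_mem_iff H P R D hD.irrefl hσ hn).2 hx, hσ,
        Or.inl (ext_cons H (ext_refl H σ)), ?_⟩
      exact (tail_lt H x σ).ne'
  constructor
  · intro σ n x hσ hn hx hmin y y'
    have hc := hZ σ n hσ hn
    have hx' : Good H P R D (below (KB H (TT H P R D)).1 Y.1 σ) σ n x :=
      (good_congr H P R D hc x).2 hx
    have h0 : Le Y.1 σ y y' ↔ Fld (KB H (TT H P R D)).1 σ ∧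
      Body H P R D (below (KB H (TT H P R D)).1 Y.1 σ) (pair y y') σ := hY (pair y y') σ
    rw [h0, fld_KB]
    constructor
    · rintro ⟨-, n', hn', z, z', hz, hb⟩
      have := len_unique H _ _ _ hn hn'
      subst this
      rw [H.pair_inj] at hz
      obtain ⟨rfl, rfl⟩ := hz
      rcases hb with ⟨x2, ⟨hx2, hmin2⟩, hle⟩ | ⟨hno, -⟩
      · have e : x2 = x := le_antisymm (hmin2 x hx')
          (hmin x2 ((good_congr H P R D hc x2).1 hx2))
        subst e
        exact (hc x2 hx.1 y y').1 hle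
      · exact absurd ⟨x, hx'⟩ hno
    · intro hle
      refine ⟨hσ, n, hn, y, y', rfl, Or.inl ⟨x, ⟨hx', fun x' h => ?_⟩, ?_⟩⟩
      · exact hmin x' ((good_congr H P R D hc x').1 h)
      · exact (hc x hx.1 y y').2 hle
  · intro σ n hσ hn hno y y'
    have hc := hZ σ n hσ hn
    have hno' : ¬ ∃ x, Good H P R D (below (KB H (TT H P R D)).1 Y.1 σ) σ n x := by
      rintro ⟨x, hx⟩
      exact hno ⟨x, (good_congr H P R D hc x).1 hx⟩
    have h0 : Le Y.1 σ y y' ↔ Fld (KB H (TT H P R D)).1 σ ∧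
      Body H P R D (below (KB H (TT H P R D)).1 Y.1 σ) (pair y y') σ := hY (pair y y') σ
    rw [h0, fld_KB]
    constructor
    · rintro ⟨-, n', hn', z, z', hz, hb⟩
      have := len_unique H _ _ _ hn hn'
      subst this
      rw [H.pair_inj] at hz
      obtain ⟨rfl, rfl⟩ := hz
      rcases hb with ⟨x2, ⟨hx2, -⟩, -⟩ | ⟨-, h1, h2, h3⟩
      · exact absurd ⟨x2, hx2⟩ hno'
      · exact ⟨h1, h2, (ord2_congr H P R D hc y y').1 h3⟩
    · rintro ⟨h1, h2, h3⟩
      exact ⟨hσ, n, hn, y, y', rfl, Or.inr ⟨hno', h1, h2, (ord2_congr H P R D hc y y').2 h3⟩⟩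

/-- A definable form of `LinOn` for gaps. -/
def LinG (Y : ↥S) (τ m : M) : Prop :=
  ((∀ y y', Le Y.1 τ y y' → Gap H P R D τ m y ∧ Gap H P R D τ m y') ∧
  (∀ y, Gap H P R D τ m y → Le Y.1 τ y y)) ∧
  ((∀ x y z, Le Y.1 τ x y → Le Y.1 τ y z → Le Y.1 τ x z) ∧
  (∀ x y, Le Y.1 τ x y → Le Y.1 τ y x → x = y)) ∧
  (∀ x y, Gap H P R D τ m x → Gap H P R D τ m y → Le Y.1 τ x y ∨ Le Y.1 τ y x) ∧
  (∀ x y, Gap H P R D τ m x → Gap H P R D τ m y → pair x y ∈ R.1 → Le Y.1 τ x y)

theorem linG_iff (Y : ↥S) (τ m : M) :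
    LinG H P R D Y τ m ↔ LinOn R Y.1 τ (Gap H P R D τ m) :=
  ⟨fun ⟨⟨h1, h2⟩, ⟨h3, h4⟩, h5, h6⟩ => ⟨h1, h2, h3, h4, h5, h6⟩,
   fun ⟨h1, h2, h3, h4, h5, h6⟩ => ⟨⟨h1, h2⟩, ⟨h3, h4⟩, h5, h6⟩⟩

theorem ar_LinG (Y : ↥S) : Ar S (fun c => LinG H P R D Y (c.n 0) (c.n 1)) := by
  unfold LinG
  infer_instance

instance ar_LinG' (Y : ↥S) (f g : Ctx M → M) [Tf f] [Tf g] :
    Ar S (fun c => LinG H P R D Y (f c) (g c)) :=
  Ar.comp2 (R := fun a b _ => LinG H P R D Y a b) (ar_LinG H P R D Y) f g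

/-- At a node where no child is good, the children are left or right. -/
theorem children (hPO : IsPO P.1 R.1) (hD : IsStrictLO D) (Y : ↥S) {σ n : M} (hn : Len H σ n)
    (hno : ¬ ∃ x, Good H P R D Y.1 σ n x)
    (hch : ∀ x, Gap H P R D σ n x → ∃ m, n < m ∧ LinOn R Y.1 (cons x σ) (Gap H P R D (cons x σ) m)) :
    (∀ x, Lft H P R D Y.1 σ n x →
      LinOn R Y.1 (cons x σ) (fun w => Gap H P R D σ n w ∧ PLt R w x)) ∧
    (∀ x, Gap H P R D σ n x → ¬ Lft H P R D Y.1 σ n x →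
      LinOn R Y.1 (cons x σ) (fun w => Gap H P R D σ n w ∧ PLt R x w)) := by
  have key : ∀ x, Gap H P R D σ n x →
      LinOn R Y.1 (cons x σ) (fun w => Gap H P R D σ n w ∧ PLt R w x) ∨
      LinOn R Y.1 (cons x σ) (fun w => Gap H P R D σ n w ∧ PLt R x w) := by
    intro x hx
    obtain ⟨m, hm, hlin⟩ := hch x hx
    rcases classify H P R D hPO hD hn hx hm with h | h | h
    · exfalso
      exact hno ⟨x, hx, m, hm, fun y => by rw [hlin.iff, h]⟩
    · exact Or.inl (hlin.congr h)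
    · exact Or.inr (hlin.congr h)
  constructor
  · intro x hx
    rcases key x hx.1 with h | h
    · exact h
    · refine h.congr fun w => ?_
      rw [← h.iff]
      exact hx.2 w
  · intro x hx hnl
    rcases key x hx with h | h
    · exact absurd ⟨hx, fun w => h.iff w⟩ hnl
    · exact h

/-- The invariant: at every node some gap is linearized. -/
theorem invariant (hPO : IsPO P.1 R.1) (hD : IsStrictLO D)
    (hWO : IsWO S (KB H (TT H P R D)).1) (Y : ↥S) (hY : IsSol H P R D Y) :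
    ∀ σ, InT H P R D σ → ∀ n, Len H σ n → ∃ m, n ≤ m ∧ LinG H P R D Y σ m := by
  have key := wo_ind H (KB H (TT H P R D)) hWO
    (fun σ => ∀ n, Len H σ n → ∃ m, n ≤ m ∧ LinG H P R D Y σ m) (by infer_instance) (by
    intro σ hσ ih n hn
    rw [fld_KB] at hσ
    have hσ' : InT H P R D σ := hσ
    have hch : ∀ x, Gap H P R D σ n x →
        ∃ m, n < m ∧ LinOn R Y.1 (cons x σ) (Gap H P R D (cons x σ) m) := by
      intro x hx
      have hlt : LtIn (KB H (TT H P R D)).1 (cons x σ) σ := by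
        rw [lt_KB]
        exact ⟨(cons_mem_iff H P R D hD.irrefl hσ' hn).2 hx, hσ',
          Or.inl (ext_cons H (ext_refl H σ)), (tail_lt H x σ).ne'⟩
      obtain ⟨m, hm, hlin⟩ := ih (cons x σ) hlt (n + 1) (len_cons H hn)
      exact ⟨m, (H.succ_le_iff _ _).1 hm, (linG_iff H P R D Y _ _).1 hlin⟩
    by_cases hg : ∃ x, Good H P R D Y.1 σ n x
    · have hAr : Ar S (fun c => Good H P R D Y.1 σ n (c.n 0)) :=
        Ar.comp3 (R := fun a b d _ => Good H P R D Y.1 a b d)
          (Ar.fixZ (ar_Good0 H P R D) Y) (fun _ => σ) (fun _ => n) (fun c => c.n 0)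
      obtain ⟨x, hx, hmin⟩ := H.least (fun x => Good H P R D Y.1 σ n x) hg
      have heq := hY.good σ n x hσ' hn hx hmin
      obtain ⟨hx1, m, hm, hx2⟩ := hx
      obtain ⟨m', -, hlin⟩ := hch x hx1
      refine ⟨m, hm.le, (linG_iff H P R D Y _ _).2 ?_⟩
      have hlin2 : LinOn R Y.1 (cons x σ) (Gap H P R D σ m) := hlin.congr fun y => by
        rw [← hx2, hlin.iff]
      exact {
        sub := fun y y' h => hlin2.sub y y' ((heq y y').1 h)
        refl := fun y h => (heq y y).2 (hlin2.refl y h)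
        trans := fun a b c h1 h2 => (heq a c).2 (hlin2.trans a b c ((heq a b).1 h1)
          ((heq b c).1 h2))
        antisymm := fun a b h1 h2 => hlin2.antisymm a b ((heq a b).1 h1) ((heq b a).1 h2)
        total := fun a b h1 h2 => by
          rw [heq, heq]
          exact hlin2.total a b h1 h2
        ext := fun a b h1 h2 h3 => (heq a b).2 (hlin2.ext a b h1 h2 h3) }
    · have heq := hY.other σ n hσ' hn hg
      obtain ⟨hL, hR⟩ := children H P R D hPO hD Y hn hg hch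
      refine ⟨n, le_rfl, (linG_iff H P R D Y _ _).2 ?_⟩
      exact {
        sub := fun y y' h => by
          rw [heq] at h
          exact ⟨h.1, h.2.1⟩
        refl := fun y h => by
          rw [heq]
          exact rel2_refl H P R D Y hPO hL hR h
        trans := fun a b c h1 h2 => by
          rw [heq] at *
          exact rel2_trans H P R D Y hPO hL hR h1 h2
        antisymm := fun a b h1 h2 => by
          rw [heq] at *
          exact rel2_antisymm H P R D Y hPO hL hR h1 h2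
        total := fun a b h1 h2 => by
          rw [heq, heq]
          exact rel2_total H P R D Y hPO hL hR h1 h2
        ext := fun a b h1 h2 h3 => by
          rw [heq]
          exact rel2_ext H P R D Y hPO hL hR h1 h2 h3 })
  intro σ hσ
  exact key σ ((fld_KB H _ σ).2 hσ)

end Pool.Agent.Work.MP_4ee3e3_lc
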