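import Pool.Agent.Work.MP_4ee3e3_lc.Basics

/-!
# Transfinite recursion with the stage as a parameter, primitive recursion, well-orders
-/

set_option autoImplicit false
set_option linter.unusedSectionVars false

namespace Pool.Agent.Work.MP_4ee3e3_lc

universe u

variable {M : Type u} [CommSemiring M] [LinearOrder M] [IsStrictOrderedRing M] {S : Set (Set M)}

theorem mem_below (H : IsModelATR0 S) (X Y : Set M) (j m i : M) :
    pair m i ∈ below X Y j ↔ LtIn X i j ∧ pair m i ∈ Y := by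
  constructor
  · rintro ⟨m', i', h, h1, h2⟩
    rw [H.pair_inj] at h
    obtain ⟨rfl, rfl⟩ := h
    exact ⟨h1, h2⟩
  · rintro ⟨h1, h2⟩
    exact ⟨m, i, rfl, h1, h2⟩

theorem LtIn.irrefl {X : Set M} {i : M} : ¬ LtIn X i i := fun h => h.2 h.1

theorem IsLO.lt_trans {X : Set M} (hX : IsLO X) {i j k : M} (h1 : LtIn X i j)
    (h2 : LtIn X j k) : LtIn X i k :=
  ⟨hX.2.1 _ _ _ h1.1 h2.1, fun h => h1.2 (hX.2.1 _ _ _ h2.1 h)⟩

theorem IsLO.trichotomy {X : Set M} (hX : IsLO X) {i j : M} (hi : Fld X i) (hj : Fld X j) :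
    LtIn X i j ∨ i = j ∨ LtIn X j i := by
  by_cases h1 : pair i j ∈ X
  · by_cases h2 : pair j i ∈ X
    · exact Or.inr (Or.inl (hX.2.2.1 _ _ h1 h2))
    · exact Or.inl ⟨h1, h2⟩
  · rcases hX.2.2.2 _ _ hi hj with h | h
    · exact absurd h h1
    · exact Or.inr (Or.inr ⟨h, h1⟩)

/-- Transfinite recursion where the defining formula may mention the stage. -/
theorem atr_j (H : IsModelATR0 S) (X : ↥S) (hWO : IsWO S X.1)
    (hind : ∀ R : M → Prop, Ar S (fun c => R (c.n 0)) →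
      (∀ j, Fld X.1 j → (∀ i, LtIn X.1 i j → R i) → R j) → ∀ j, Fld X.1 j → R j)
    (R : M → M → Set M → Prop) (hR : Ar S (fun c => R (c.n 0) (c.n 1) c.Z)) :
    ∃ Y : ↥S, ∀ n j, pair n j ∈ Y.1 ↔ Fld X.1 j ∧ R n j (below X.1 Y.1 j) := by
  have hLO := hWO.1
  let T : Set M → Set M := fun Z => {z | ∃ m, ∃ i, z = pair m i ∧ pair (m + 1) i ∈ Z}
  have hT : Ar S (fun c => c.n 0 ∈ T c.Z) := by
    show Ar S (fun c => ∃ m, ∃ i, c.n 0 = pair m i ∧ pair (m + 1) i ∈ c.Z)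
    infer_instance
  have hRT : Ar S (fun c => R (c.n 0) (c.n 1) (T c.Z)) :=
    Ar.substZ hT hR
  have hRT' : ∀ (f g : Ctx M → M) [Tf f] [Tf g], Ar S (fun c => R (f c) (g c) (T c.Z)) :=
    fun f g _ _ => Ar.comp2 (R := fun a b Z => R a b (T Z)) hRT f g
  have hTh : Ar S (fun c => ∃ j, Fld X.1 j ∧ (∀ i, LtIn X.1 i j → pair 0 i ∈ c.Z) ∧
      pair 0 j ∉ c.Z ∧ (c.n 0 = 0 ∨ ∃ m, c.n 0 = m + 1 ∧ R m j (T c.Z))) := by
    have := hRT' (fun c => c.n 0) (fun c => c.n 1)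
    infer_instance
  obtain ⟨θ, hθ1, hθ2⟩ := hTh.out
  obtain ⟨Y', hY', hY⟩ := H.transfinite_recursion θ hθ1 (fun _ => 0) X.1 X.2 hWO
  have hYmem : ∀ n j, pair n j ∈ Y' ↔ Fld X.1 j ∧ ∃ j', Fld X.1 j' ∧
      (∀ i, LtIn X.1 i j' → pair 0 i ∈ below X.1 Y' j) ∧ pair 0 j' ∉ below X.1 Y' j ∧
      (n = 0 ∨ ∃ m, n = m + 1 ∧ R m j' (T (below X.1 Y' j))) := by
    intro n j
    rw [hY]
    constructor
    · rintro ⟨n', j', h, h1, h2⟩
      rw [H.pair_inj] at h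
      obtain ⟨rfl, rfl⟩ := h
      exact ⟨h1, (hθ2 ⟨push n (fun _ => 0), below X.1 Y' j⟩).2 h2⟩
    · rintro ⟨h1, h2⟩
      exact ⟨n, j, rfl, h1, (hθ2 ⟨push n (fun _ => 0), below X.1 Y' j⟩).1 h2⟩
  -- every stage contains the marker `0`
  have key1 : ∀ j, Fld X.1 j → pair 0 j ∈ Y' := by
    apply hind (fun j => pair 0 j ∈ Y')
      (inferInstanceAs (Ar S (fun c => pair 0 (c.n 0) ∈ (⟨Y', hY'⟩ : ↥S).1)))
    intro j hj ih
    rw [hYmem]
    refine ⟨hj, j, hj, ?_, ?_, Or.inl rfl⟩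
    · intro i hi
      rw [mem_below H]
      exact ⟨hi, ih i hi⟩
    · rw [mem_below H]
      exact fun h => LtIn.irrefl h.1
  have key2 : ∀ j j', Fld X.1 j → Fld X.1 j' →
      (∀ i, LtIn X.1 i j' → pair 0 i ∈ below X.1 Y' j) → pair 0 j' ∉ below X.1 Y' j → j' = j := by
    intro j j' hj hj' h1 h2
    rcases hLO.trichotomy hj hj' with h | h | h
    · have := h1 j h
      rw [mem_below H] at this
      exact absurd this.1 LtIn.irrefl
    · exact h.symm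
    · exfalso
      apply h2
      rw [mem_below H]
      exact ⟨h, key1 j' hj'⟩
  have key3 : ∀ m j, pair (m + 1) j ∈ Y' ↔ Fld X.1 j ∧ R m j (T (below X.1 Y' j)) := by
    intro m j
    rw [hYmem]
    constructor
    · rintro ⟨hj, j', hj', h1, h2, h3⟩
      have := key2 j j' hj hj' h1 h2
      subst this
      refine ⟨hj, ?_⟩
      rcases h3 with h3 | ⟨m', h3, h4⟩
      · exact absurd h3 (H.succ_ne_zero m)
      · have := H.succ_inj _ _ h3
        subst this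
        exact h4
    · rintro ⟨hj, h⟩
      refine ⟨hj, j, hj, ?_, ?_, Or.inr ⟨m, rfl, h⟩⟩
      · intro i hi
        rw [mem_below H]
        exact ⟨hi, key1 i (hLO.1 _ _ hi.1).1⟩
      · rw [mem_below H]
        exact fun h => LtIn.irrefl h.1
  refine ⟨mk2 H (fun m j => pair (m + 1) j ∈ (⟨Y', hY'⟩ : ↥S).1), ?_⟩
  intro n j
  rw [mem_mk2, key3]
  have hbelow : T (below X.1 Y' j) =
      below X.1 (mk2 H (fun m j => pair (m + 1) j ∈ (⟨Y', hY'⟩ : ↥S).1)).1 j := by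
    ext z
    constructor
    · rintro ⟨m, i, rfl, h⟩
      rw [mem_below H] at h ⊢
      rw [mem_mk2]
      exact h
    · rintro ⟨m, i, rfl, h1, h2⟩
      rw [mem_mk2] at h2
      refine ⟨m, i, rfl, ?_⟩
      rw [mem_below H]
      exact ⟨h1, h2⟩
  rw [hbelow]

/-! ### the natural order -/

/-- the natural (reflexive) order of the numbers -/
def natX (H : IsModelATR0 S) : ↥S := mk2 H (fun a b => a ≤ b)

theorem mem_natX (H : IsModelATR0 S) (a b : M) : pair a b ∈ (natX H).1 ↔ a ≤ b :=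
  mem_mk2 H _ a b

theorem lt_natX (H : IsModelATR0 S) (a b : M) : LtIn (natX H).1 a b ↔ a < b := by
  unfold LtIn
  rw [mem_natX, mem_natX, not_le]
  exact ⟨fun h => h.2, fun h => ⟨h.le, h⟩⟩

theorem fld_natX (H : IsModelATR0 S) (a : M) : Fld (natX H).1 a := (mem_natX H a a).2 le_rfl

theorem natX_wo (H : IsModelATR0 S) : IsWO S (natX H).1 := by
  refine ⟨⟨?_, ?_, ?_, ?_⟩, ?_⟩
  · intro i j _
    exact ⟨fld_natX H i, fld_natX H j⟩
  · intro i j k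
    rw [mem_natX, mem_natX, mem_natX]
    exact le_trans
  · intro i j
    rw [mem_natX, mem_natX]
    exact le_antisymm
  · intro i j _ _
    rw [mem_natX, mem_natX]
    exact le_total i j
  · rintro ⟨F, hF, hfun, hdesc⟩
    have hAr : Ar S (fun c => ∃ n, pair n (c.n 0) ∈ (⟨F, hF⟩ : ↥S).1) := by infer_instance
    obtain ⟨y, ⟨n, hn⟩, hmin⟩ := H.least (fun y => ∃ n, pair n y ∈ (⟨F, hF⟩ : ↥S).1) (by
      obtain ⟨m, hm, -⟩ := hfun 0
      exact ⟨m, 0, hm⟩)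
    obtain ⟨b, hb, -⟩ := hfun (n + 1)
    have hlt := hdesc n y b hn hb
    rw [lt_natX] at hlt
    exact absurd (hmin b ⟨n + 1, hb⟩) (not_le.2 hlt)

/-- The part of `Y` strictly below stage `j`. -/
def belowN (Y : Set M) (j : M) : Set M := {z | ∃ m i, z = pair m i ∧ i < j ∧ pair m i ∈ Y}

theorem mem_belowN (H : IsModelATR0 S) (Y : Set M) (j m i : M) :
    pair m i ∈ belowN Y j ↔ i < j ∧ pair m i ∈ Y := by
  constructor
  · rintro ⟨m', i', h, h1, h2⟩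
    rw [H.pair_inj] at h
    obtain ⟨rfl, rfl⟩ := h
    exact ⟨h1, h2⟩
  · rintro ⟨h1, h2⟩
    exact ⟨m, i, rfl, h1, h2⟩

/-- course-of-values recursion along the numbers -/
theorem rec_nat (H : IsModelATR0 S) (R : M → M → Set M → Prop)
    (hR : Ar S (fun c => R (c.n 0) (c.n 1) c.Z)) :
    ∃ Y : ↥S, ∀ n j, pair n j ∈ Y.1 ↔ R n j (belowN Y.1 j) := by
  obtain ⟨Y, hY⟩ := atr_j H (natX H) (natX_wo H) (by
    intro R hR h j _
    exact H.sind R (fun n ih => h n (fld_natX H n)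
      (fun i hi => ih i ((lt_natX H i n).1 hi))) j) R hR
  refine ⟨Y, fun n j => ?_⟩
  have hb : below (natX H).1 Y.1 j = belowN Y.1 j := by
    ext z
    constructor
    · rintro ⟨m, i, h1, h2, h3⟩
      exact ⟨m, i, h1, (lt_natX H i j).1 h2, h3⟩
    · rintro ⟨m, i, h1, h2, h3⟩
      exact ⟨m, i, h1, (lt_natX H i j).2 h2, h3⟩
  rw [hY, hb]
  exact ⟨fun h => h.2, fun h => ⟨fld_natX H j, h⟩⟩

/-- iteration of a definable function -/
theorem iterate (H : IsModelATR0 S) (Q : M → M → Prop) (hQ : Ar S (fun c => Q (c.n 0) (c.n 1)))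
    (D : M → Prop) (hD : Ar S (fun c => D (c.n 0)))
    (hex : ∀ a, D a → ∃! b, Q a b) (hDQ : ∀ a b, D a → Q a b → D b) (a0 : M) (ha0 : D a0) :
    ∃ F : ↥S, (∀ n, ∃! m, pair n m ∈ F.1) ∧ pair 0 a0 ∈ F.1 ∧
      (∀ n a b, pair n a ∈ F.1 → pair (n + 1) b ∈ F.1 → Q a b) ∧ ∀ n a, pair n a ∈ F.1 → D a := by
  have hQ' : ∀ (f g : Ctx M → M) [Tf f] [Tf g], Ar S (fun c => Q (f c) (g c)) :=
    fun f g _ _ => Ar.comp2 (R := fun a b _ => Q a b) hQ f g
  obtain ⟨Y, hY⟩ := rec_nat H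
    (fun n j Z => (j = 0 ∧ n = a0) ∨ ∃ i, j = i + 1 ∧ ∃ a, pair a i ∈ Z ∧ Q a n) (by
      have := hQ' (fun c => c.n 0) (fun c => c.n 2)
      infer_instance)
  have hY0 : ∀ n, pair n 0 ∈ Y.1 ↔ n = a0 := by
    intro n
    rw [hY]
    constructor
    · rintro (⟨-, h⟩ | ⟨i, h, -⟩)
      · exact h
      · exact absurd h.symm (H.succ_ne_zero i)
    · intro h
      exact Or.inl ⟨rfl, h⟩
  have hYs : ∀ n i, pair n (i + 1) ∈ Y.1 ↔ ∃ a, pair a i ∈ Y.1 ∧ Q a n := by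
    intro n i
    rw [hY]
    constructor
    · rintro (⟨h, -⟩ | ⟨i', h, a, ha, hq⟩)
      · exact absurd h (H.succ_ne_zero i)
      · have := H.succ_inj _ _ h
        subst this
        rw [mem_belowN H] at ha
        exact ⟨a, ha.2, hq⟩
    · rintro ⟨a, ha, hq⟩
      refine Or.inr ⟨i, rfl, a, ?_, hq⟩
      rw [mem_belowN H]
      exact ⟨(H.lt_succ_iff i i).2 le_rfl, ha⟩
  have hDall : ∀ j, ∀ n, pair n j ∈ Y.1 → D n := by
    have hD' : ∀ (f : Ctx M → M) [Tf f], Ar S (fun c => D (f c)) :=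
      fun f _ => Ar.comp1 (R := fun a _ => D a) hD f
    have := hD' (fun c => c.n 0)
    apply H.ind (fun j => ∀ n, pair n j ∈ Y.1 → D n)
    · intro n hn
      rw [hY0] at hn
      subst hn
      exact ha0
    · intro j ih n hn
      rw [hYs] at hn
      obtain ⟨a, ha, hq⟩ := hn
      exact hDQ a n (ih a ha) hq
  have huniq : ∀ j, ∃ n, pair n j ∈ Y.1 ∧ ∀ n', pair n' j ∈ Y.1 → n' = n := by
    apply H.ind (fun j => ∃ n, pair n j ∈ Y.1 ∧ ∀ n', pair n' j ∈ Y.1 → n' = n)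
    · exact ⟨a0, (hY0 a0).2 rfl, fun n' h => (hY0 n').1 h⟩
    · rintro j ⟨n, hn, hu⟩
      obtain ⟨b, hb, hbu⟩ := hex n (hDall j n hn)
      refine ⟨b, (hYs b j).2 ⟨n, hn, hb⟩, ?_⟩
      intro n' hn'
      rw [hYs] at hn'
      obtain ⟨a, ha, hq⟩ := hn'
      have := hu a ha
      subst this
      exact hbu n' hq
  refine ⟨mk2 H (fun j n => pair n j ∈ Y.1), ?_, ?_, ?_, ?_⟩
  · intro n
    obtain ⟨m, hm, hu⟩ := huniq n
    refine ⟨m, (mem_mk2 H _ n m).2 hm, fun m' hm' => hu m' ((mem_mk2 H _ n m').1 hm')⟩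
  · rw [mem_mk2]
    exact (hY0 a0).2 rfl
  · intro n a b ha hb
    rw [mem_mk2] at ha hb
    rw [hYs] at hb
    obtain ⟨a', ha', hq⟩ := hb
    obtain ⟨m, hm, hu⟩ := huniq n
    rw [hu a ha, ← hu a' ha']
    exact hq
  · intro n a ha
    rw [mem_mk2] at ha
    exact hDall n a ha

/-- least element principle along a well-order -/
theorem wo_least (H : IsModelATR0 S) (X : ↥S) (hX : IsWO S X.1) (R : M → Prop)
    (hR : Ar S (fun c => R (c.n 0))) (h : ∃ j, Fld X.1 j ∧ R j) :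
    ∃ j, Fld X.1 j ∧ R j ∧ ∀ i, LtIn X.1 i j → ¬ R i := by
  by_contra hcon
  push Not at hcon
  have hR' : ∀ (f : Ctx M → M) [Tf f], Ar S (fun c => R (f c)) :=
    fun f _ => Ar.comp1 (R := fun a _ => R a) hR f
  obtain ⟨j0, hj0, hRj0⟩ := h
  obtain ⟨F, hF1, -, hF3, hF4⟩ := iterate H
    (fun a b => LtIn X.1 b a ∧ R b ∧ ∀ b', LtIn X.1 b' a → R b' → b ≤ b')
    (by
      have := hR' (fun c => c.n 0)
      have := hR' (fun c => c.n 1)
      infer_instance)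
    (fun a => Fld X.1 a ∧ R a) (by infer_instance)
    (by
      rintro a ⟨ha, hRa⟩
      obtain ⟨i, hi, hRi⟩ := hcon a ha hRa
      have hAr : Ar S (fun c => LtIn X.1 (c.n 0) a ∧ R (c.n 0)) := by infer_instance
      obtain ⟨b, ⟨hb1, hb2⟩, hb3⟩ := H.least (fun b => LtIn X.1 b a ∧ R b) ⟨i, hi, hRi⟩
      refine ⟨b, ⟨hb1, hb2, fun b' h1 h2 => hb3 b' ⟨h1, h2⟩⟩, ?_⟩
      rintro b' ⟨h1, h2, h3⟩
      exact le_antisymm (h3 b hb1 hb2) (hb3 b' ⟨h1, h2⟩))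
    (by
      rintro a b - ⟨h1, h2, -⟩
      exact ⟨(hX.1.1 _ _ h1.1).1, h2⟩)
    j0 ⟨hj0, hRj0⟩
  apply hX.2
  refine ⟨F.1, F.2, hF1, ?_⟩
  intro n a b ha hb
  exact (hF3 n a b ha hb).1

theorem wo_ind (H : IsModelATR0 S) (X : ↥S) (hX : IsWO S X.1) (R : M → Prop)
    (hR : Ar S (fun c => R (c.n 0)))
    (h : ∀ j, Fld X.1 j → (∀ i, LtIn X.1 i j → R i) → R j) : ∀ j, Fld X.1 j → R j := by
  by_contra hcon
  push Not at hcon
  obtain ⟨j, h1, h2, h3⟩ := wo_least H X hX (fun j => ¬ R j) (by infer_instance) hcon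
  exact h2 (h j h1 fun i hi => not_not.1 (h3 i hi))

/-- Transfinite recursion along a well-order, with the stage as a parameter. -/
theorem atr (H : IsModelATR0 S) (X : ↥S) (hWO : IsWO S X.1)
    (R : M → M → Set M → Prop) (hR : Ar S (fun c => R (c.n 0) (c.n 1) c.Z)) :
    ∃ Y : ↥S, ∀ n j, pair n j ∈ Y.1 ↔ Fld X.1 j ∧ R n j (below X.1 Y.1 j) :=
  atr_j H X hWO (fun R hR h => wo_ind H X hWO R hR h) R hR

end Pool.Agent.Work.MP_4ee3e3_lc
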