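import Pool.Agent.Work.MP_4ee3e3_lc.Rec

/-!
# The linearization obtained at the root is scattered
-/

set_option autoImplicit false
set_option linter.unusedSectionVars false

namespace Pool.Agent.Work.MP_4ee3e3_lc

universe u

variable {M : Type u} [CommSemiring M] [LinearOrder M] [IsStrictOrderedRing M] {S : Set (Set M)}

variable (H : IsModelATR0 S) (P R D : ↥S)

theorem ord2_of_inA (Y : ↥S) {σ n y y' : M} (h : Ord2 H P R D Y.1 σ n y y')
    (h' : InA H P R D Y.1 σ n y') :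
    ∃ x x', KA H P R D Y.1 σ n y x ∧ KA H P R D Y.1 σ n y' x' ∧
      (x < x' ∨ (x = x' ∧ (y' = x ∨ Le Y.1 (cons x σ) y y'))) := by
  rcases h with h | h | h
  · exact absurd h' h.2
  · exact h
  · exact absurd h' h.1.2

theorem ord2_of_not_inA (Y : ↥S) {σ n y y' : M} (h : Ord2 H P R D Y.1 σ n y y')
    (h' : ¬ InA H P R D Y.1 σ n y) :
    ∃ x x', KB' H P R D Y.1 σ n y x ∧ KB' H P R D Y.1 σ n y' x' ∧
      (x' < x ∨ (x = x' ∧ (y = x ∨ Le Y.1 (cons x σ) y y'))) := by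
  rcases h with h | h | h
  · exact absurd h.1 h'
  · obtain ⟨x, x', h1, -⟩ := h
    exact absurd (h1.inA H P R D Y) h'
  · exact h.2

/-- No dense strict order embeds into the order at the root. -/
theorem scattered (hPO : IsPO P.1 R.1) (hD : IsStrictLO D)
    (hWO : IsWO S (KB H (TT H P R D)).1) (Y : ↥S) (hY : IsSol H P R D Y)
    (Q F : ↥S)
    (hQt : ∀ a b c, pair a b ∈ Q.1 → pair b c ∈ Q.1 → pair a c ∈ Q.1)
    (hQd : ∀ a b, pair a b ∈ Q.1 → ∃ c, pair a c ∈ Q.1 ∧ pair c b ∈ Q.1)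
    (hQne : ∃ a b, pair a b ∈ Q.1)
    (hFt : ∀ w v, pair v w ∈ Q.1 → ∃ y, pair w y ∈ F.1)
    (hinc : ∀ w w' y y', pair w w' ∈ Q.1 → pair w y ∈ F.1 → pair w' y' ∈ F.1 →
      Le Y.1 0 y y' ∧ y ≠ y') : False := by
  obtain ⟨σ, hσ, ⟨u, v, huv, hΦ⟩, hmin⟩ := wo_least H (KB H (TT H P R D)) hWO
    (fun σ => ∃ u v, pair u v ∈ Q.1 ∧ ∀ w w' y y', pair u w ∈ Q.1 → pair w w' ∈ Q.1 →
      pair w' v ∈ Q.1 → pair w y ∈ F.1 → pair w' y' ∈ F.1 → Le Y.1 σ y y')
    (by infer_instance)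
    (by
      obtain ⟨a, b, hab⟩ := hQne
      refine ⟨0, (fld_KB H _ 0).2 (nil_mem H P R D), a, b, hab, ?_⟩
      intro w w' y y' _ h _ h1 h2
      exact (hinc w w' y y' h h1 h2).1)
  rw [fld_KB] at hσ
  have hσ' : InT H P R D σ := hσ
  obtain ⟨n, hn⟩ := hσ'.1
  have hlt : ∀ x, Gap H P R D σ n x → LtIn (KB H (TT H P R D)).1 (cons x σ) σ := by
    intro x hx
    rw [lt_KB]
    exact ⟨(cons_mem_iff H P R D hD.irrefl hσ' hn).2 hx, hσ',
      Or.inl (ext_cons H (ext_refl H σ)), (tail_lt H x σ).ne'⟩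
  by_cases hg : ∃ x, Good H P R D Y.1 σ n x
  · have hAr : Ar S (fun c => Good H P R D Y.1 σ n (c.n 0)) :=
      Ar.comp3 (R := fun a b d _ => Good H P R D Y.1 a b d)
        (Ar.fixZ (ar_Good0 H P R D) Y) (fun _ => σ) (fun _ => n) (fun c => c.n 0)
    obtain ⟨x, hx, hmin'⟩ := H.least (fun x => Good H P R D Y.1 σ n x) hg
    have heq := hY.good σ n x hσ' hn hx hmin'
    apply hmin (cons x σ) (hlt x hx.1)
    exact ⟨u, v, huv, fun w w' y y' h1 h2 h3 h4 h5 => (heq y y').1 (hΦ w w' y y' h1 h2 h3 h4 h5)⟩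
  · have heq := hY.other σ n hσ' hn hg
    have hch : ∀ x, Gap H P R D σ n x →
        ∃ m, n < m ∧ LinOn R Y.1 (cons x σ) (Gap H P R D (cons x σ) m) := by
      intro x hx
      obtain ⟨m, hm, hlin⟩ := invariant H P R D hPO hD hWO Y hY (cons x σ)
        ((cons_mem_iff H P R D hD.irrefl hσ' hn).2 hx) (n + 1) (len_cons H hn)
      exact ⟨m, (H.succ_le_iff _ _).1 hm, (linG_iff H P R D Y _ _).1 hlin⟩
    obtain ⟨hL, hR⟩ := children H P R D hPO hD Y hn hg hch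
    have hrel : ∀ w w' y y', pair u w ∈ Q.1 → pair w w' ∈ Q.1 → pair w' v ∈ Q.1 →
        pair w y ∈ F.1 → pair w' y' ∈ F.1 → Rel2 H P R D Y σ n y y' := by
      intro w w' y y' h1 h2 h3 h4 h5
      exact (heq y y').1 (hΦ w w' y y' h1 h2 h3 h4 h5)
    by_cases hA : ∃ w0 y0, pair u w0 ∈ Q.1 ∧ pair w0 v ∈ Q.1 ∧ pair w0 y0 ∈ F.1 ∧
        InA H P R D Y.1 σ n y0
    · obtain ⟨w0, y0, hu0, h0v, hF0, hA0⟩ := hA
      obtain ⟨x, ⟨w1, y1, hu1, h10, hF1, hK1⟩, hxmin⟩ := H.least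
        (fun x => ∃ w y, pair u w ∈ Q.1 ∧ pair w w0 ∈ Q.1 ∧ pair w y ∈ F.1 ∧
          KA H P R D Y.1 σ n y x) (by
          obtain ⟨w, hw1, hw2⟩ := hQd u w0 hu0
          obtain ⟨y, hy⟩ := hFt w u hw1
          obtain ⟨x, x', hx, -⟩ := ord2_of_inA H P R D Y (hrel w w0 y y0 hw1 hw2 h0v hy hF0).2.2 hA0
          exact ⟨x, w, y, hw1, hw2, hy, hx⟩)
      have h1v : pair w1 v ∈ Q.1 := hQt _ _ _ h10 h0v
      have claim : ∀ w y, pair u w ∈ Q.1 → pair w w1 ∈ Q.1 → pair w y ∈ F.1 →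
          KA H P R D Y.1 σ n y x := by
        intro w y h1 h2 h3
        obtain ⟨x2, x3, hx2, hx3, h4⟩ := ord2_of_inA H P R D Y
          (hrel w w1 y y1 h1 h2 h1v h3 hF1).2.2 (hK1.inA H P R D Y)
        have e := KA_unique H P R D Y hx3 hK1
        subst e
        have hle := hxmin x2 ⟨w, y, h1, hQt _ _ _ h2 h10, h3, hx2⟩
        rcases h4 with h4 | ⟨h4, -⟩
        · exact absurd h4 (not_lt.2 hle)
        · subst h4
          exact hx2
      have hlin := hL x hK1.1.1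
      have step : ∀ w w' y y', pair u w ∈ Q.1 → pair w w' ∈ Q.1 → pair w' w1 ∈ Q.1 →
          pair w y ∈ F.1 → pair w' y' ∈ F.1 → y' = x ∨ Le Y.1 (cons x σ) y y' := by
        intro w w' y y' h1 h2 h3 h4 h5
        have hk := claim w y h1 (hQt _ _ _ h2 h3) h4
        have hk' := claim w' y' (hQt _ _ _ h1 h2) h3 h5
        obtain ⟨x2, x3, hx2, hx3, h6⟩ := ord2_of_inA H P R D Y
          (hrel w w' y y' h1 h2 (hQt _ _ _ h3 h1v) h4 h5).2.2 (hk'.inA H P R D Y)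
        have e := KA_unique H P R D Y hx3 hk'
        have e' := KA_unique H P R D Y hx2 hk
        subst e e'
        rcases h6 with h6 | ⟨-, h6⟩
        · exact absurd h6 (lt_irrefl _)
        · exact h6
      apply hmin (cons x σ) (hlt x hK1.1.1.1)
      refine ⟨u, w1, hu1, ?_⟩
      intro w w' y y' h1 h2 h3 h4 h5
      rcases step w w' y y' h1 h2 h3 h4 h5 with h6 | h6
      · exfalso
        obtain ⟨w'', h7, h8⟩ := hQd w' w1 h3
        obtain ⟨y'', h9⟩ := hFt w'' w' h7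
        rcases step w' w'' y' y'' (hQt _ _ _ h1 h2) h7 h8 h5 h9 with h10 | h10
        · exact (hinc w' w'' y' y'' h7 h5 h9).2 (h6.trans h10.symm)
        · exact ((hlin.sub _ _ h10).1.2).2 h6
      · exact h6
    · push Not at hA
      have hgap : ∀ w y, pair u w ∈ Q.1 → pair w v ∈ Q.1 → pair w y ∈ F.1 →
          Gap H P R D σ n y := by
        intro w y h1 h2 h3
        obtain ⟨w', h4, h5⟩ := hQd w v h2
        obtain ⟨y', h6⟩ := hFt w' w h4
        exact (hrel w w' y y' h1 h4 h5 h3 h6).1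
      obtain ⟨x, ⟨w1, y1, hu1, h1v, hF1, hK1⟩, hxmin⟩ := H.least
        (fun x => ∃ w y, pair u w ∈ Q.1 ∧ pair w v ∈ Q.1 ∧ pair w y ∈ F.1 ∧
          KB' H P R D Y.1 σ n y x) (by
          obtain ⟨w, hw1, hw2⟩ := hQd u v huv
          obtain ⟨y, hy⟩ := hFt w u hw1
          obtain ⟨x, hx⟩ := KB_exists H P R D Y hPO (hgap w y hw1 hw2 hy) (hA w y hw1 hw2 hy)
          exact ⟨x, w, y, hw1, hw2, hy, hx⟩)
      have claim : ∀ w y, pair w1 w ∈ Q.1 → pair w v ∈ Q.1 → pair w y ∈ F.1 →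
          KB' H P R D Y.1 σ n y x := by
        intro w y h1 h2 h3
        obtain ⟨x2, x3, hx2, hx3, h4⟩ := ord2_of_not_inA H P R D Y
          (hrel w1 w y1 y hu1 h1 h2 hF1 h3).2.2 (hA w1 y1 hu1 h1v hF1)
        have e := KB_unique H P R D Y hx2 hK1
        subst e
        have hle := hxmin x3 ⟨w, y, hQt _ _ _ hu1 h1, h2, h3, hx3⟩
        rcases h4 with h4 | ⟨h4, -⟩
        · exact absurd h4 (not_lt.2 hle)
        · subst h4
          exact hx3
      have hlin := hR' H P R D Y hPO hR hK1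
      have step : ∀ w w' y y', pair w1 w ∈ Q.1 → pair w w' ∈ Q.1 → pair w' v ∈ Q.1 →
          pair w y ∈ F.1 → pair w' y' ∈ F.1 → y = x ∨ Le Y.1 (cons x σ) y y' := by
        intro w w' y y' h1 h2 h3 h4 h5
        have huw := hQt _ _ _ hu1 h1
        have hk := claim w y h1 (hQt _ _ _ h2 h3) h4
        have hk' := claim w' y' (hQt _ _ _ h1 h2) h3 h5
        obtain ⟨x2, x3, hx2, hx3, h6⟩ := ord2_of_not_inA H P R D Y
          (hrel w w' y y' huw h2 h3 h4 h5).2.2 (hA w y huw (hQt _ _ _ h2 h3) h4)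
        have e := KB_unique H P R D Y hx3 hk'
        have e' := KB_unique H P R D Y hx2 hk
        subst e e'
        rcases h6 with h6 | ⟨-, h6⟩
        · exact absurd h6 (lt_irrefl _)
        · exact h6
      apply hmin (cons x σ) (hlt x hK1.1.1.1)
      refine ⟨w1, v, h1v, ?_⟩
      intro w w' y y' h1 h2 h3 h4 h5
      rcases step w w' y y' h1 h2 h3 h4 h5 with h6 | h6
      · exfalso
        obtain ⟨w'', h7, h8⟩ := hQd w1 w h1
        obtain ⟨y'', h9⟩ := hFt w'' w1 h7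
        rcases step w'' w y'' y h7 h8 (hQt _ _ _ h2 h3) h9 h4 with h10 | h10
        · exact (hinc w'' w y'' y h8 h9 h4).2 (h10.trans h6.symm)
        · exact ((hlin.sub _ _ h10).2.2).2 h6.symm
      · exact h6

end Pool.Agent.Work.MP_4ee3e3_lc
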