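import Pool.Agent.Work.MP_4ee3e3_lc.Tree

/-!
# The recursion step: linearizing a gap from linearizations at the children
-/

set_option autoImplicit false
set_option linter.unusedSectionVars false

namespace Pool.Agent.Work.MP_4ee3e3_lc

universe u

variable {M : Type u} [CommSemiring M] [LinearOrder M] [IsStrictOrderedRing M] {S : Set (Set M)}

/-- the order stored in `Z` at stage `τ` -/
def Le (Z : Set M) (τ y y' : M) : Prop := pair (pair y y') τ ∈ Z

instance ar_Le (f g k : Ctx M → M) [Tf f] [Tf g] [Tf k] :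
    Ar S (fun c => Le c.Z (f c) (g c) (k c)) := by
  unfold Le
  infer_instance

instance ar_LeS (Y : ↥S) (f g k : Ctx M → M) [Tf f] [Tf g] [Tf k] :
    Ar S (fun c => Le Y.1 (f c) (g c) (k c)) := by
  unfold Le
  infer_instance

section defs

variable (H : IsModelATR0 S) (P R D : ↥S) (Z : Set M)

/-- the order stored at the child `x` of `σ` lives on a gap of `σ` -/
def Good (σ n x : M) : Prop :=
  Gap H P R D σ n x ∧ ∃ m, n < m ∧ ∀ y, Le Z (cons x σ) y y ↔ Gap H P R D σ m y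

/-- the order stored at the child `x` lives on the part of the gap below `x` -/
def Lft (σ n x : M) : Prop :=
  Gap H P R D σ n x ∧ ∀ w, Le Z (cons x σ) w w ↔ (Gap H P R D σ n w ∧ PLt R w x)

/-- `y` belongs to the lower part of the gap -/
def InA (σ n y : M) : Prop := ∃ x, Lft H P R D Z σ n x ∧ pair y x ∈ R.1

/-- `x` is the index of `y` in the lower part -/
def KA (σ n y x : M) : Prop :=
  (Lft H P R D Z σ n x ∧ pair y x ∈ R.1) ∧
    ∀ x', (Lft H P R D Z σ n x' ∧ pair y x' ∈ R.1) → x ≤ x'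

/-- `x` is the index of `y` in the upper part -/
def KB' (σ n y x : M) : Prop :=
  ((Gap H P R D σ n x ∧ ¬ InA H P R D Z σ n x) ∧ pair x y ∈ R.1) ∧
    ∀ x', ((Gap H P R D σ n x' ∧ ¬ InA H P R D Z σ n x') ∧ pair x' y ∈ R.1) → x ≤ x'

/-- the order on the gap built from the orders at the children -/
def Ord2 (σ n y y' : M) : Prop :=
  (InA H P R D Z σ n y ∧ ¬ InA H P R D Z σ n y') ∨
  (∃ x x', KA H P R D Z σ n y x ∧ KA H P R D Z σ n y' x' ∧
    (x < x' ∨ (x = x' ∧ (y' = x ∨ Le Z (cons x σ) y y')))) ∨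
  ((¬ InA H P R D Z σ n y ∧ ¬ InA H P R D Z σ n y') ∧
    ∃ x x', KB' H P R D Z σ n y x ∧ KB' H P R D Z σ n y' x' ∧
      (x' < x ∨ (x = x' ∧ (y = x ∨ Le Z (cons x σ) y y'))))

/-- the recursion clause -/
def Body (z σ : M) : Prop :=
  ∃ n, Len H σ n ∧ ∃ y y', z = pair y y' ∧
    ((∃ x, (Good H P R D Z σ n x ∧ ∀ x', Good H P R D Z σ n x' → x ≤ x') ∧ Le Z (cons x σ) y y') ∨
    ((¬ ∃ x, Good H P R D Z σ n x) ∧ Gap H P R D σ n y ∧ Gap H P R D σ n y' ∧
      Ord2 H P R D Z σ n y y'))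

end defs

section ar

variable (H : IsModelATR0 S) (P R D : ↥S)

theorem ar_Good0 : Ar S (fun c => Good H P R D c.Z (c.n 0) (c.n 1) (c.n 2)) := by
  unfold Good
  infer_instance

instance ar_Good (f g k : Ctx M → M) [Tf f] [Tf g] [Tf k] :
    Ar S (fun c => Good H P R D c.Z (f c) (g c) (k c)) :=
  Ar.comp3 (R := fun a b d Z => Good H P R D Z a b d) (ar_Good0 H P R D) f g k

theorem ar_Lft0 : Ar S (fun c => Lft H P R D c.Z (c.n 0) (c.n 1) (c.n 2)) := by
  unfold Lft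
  infer_instance

instance ar_Lft (f g k : Ctx M → M) [Tf f] [Tf g] [Tf k] :
    Ar S (fun c => Lft H P R D c.Z (f c) (g c) (k c)) :=
  Ar.comp3 (R := fun a b d Z => Lft H P R D Z a b d) (ar_Lft0 H P R D) f g k

theorem ar_InA0 : Ar S (fun c => InA H P R D c.Z (c.n 0) (c.n 1) (c.n 2)) := by
  unfold InA
  infer_instance

instance ar_InA (f g k : Ctx M → M) [Tf f] [Tf g] [Tf k] :
    Ar S (fun c => InA H P R D c.Z (f c) (g c) (k c)) :=
  Ar.comp3 (R := fun a b d Z => InA H P R D Z a b d) (ar_InA0 H P R D) f g k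

theorem ar_KA0 : Ar S (fun c => KA H P R D c.Z (c.n 0) (c.n 1) (c.n 2) (c.n 3)) := by
  unfold KA
  infer_instance

instance ar_KA (f g k l : Ctx M → M) [Tf f] [Tf g] [Tf k] [Tf l] :
    Ar S (fun c => KA H P R D c.Z (f c) (g c) (k c) (l c)) :=
  Ar.comp4 (R := fun a b d e Z => KA H P R D Z a b d e) (ar_KA0 H P R D) f g k l

theorem ar_KB0 : Ar S (fun c => KB' H P R D c.Z (c.n 0) (c.n 1) (c.n 2) (c.n 3)) := by
  unfold KB'
  infer_instance

instance ar_KB (f g k l : Ctx M → M) [Tf f] [Tf g] [Tf k] [Tf l] :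
    Ar S (fun c => KB' H P R D c.Z (f c) (g c) (k c) (l c)) :=
  Ar.comp4 (R := fun a b d e Z => KB' H P R D Z a b d e) (ar_KB0 H P R D) f g k l

theorem ar_Ord20 : Ar S (fun c => Ord2 H P R D c.Z (c.n 0) (c.n 1) (c.n 2) (c.n 3)) := by
  unfold Ord2
  infer_instance

instance ar_Ord2 (f g k l : Ctx M → M) [Tf f] [Tf g] [Tf k] [Tf l] :
    Ar S (fun c => Ord2 H P R D c.Z (f c) (g c) (k c) (l c)) :=
  Ar.comp4 (R := fun a b d e Z => Ord2 H P R D Z a b d e) (ar_Ord20 H P R D) f g k l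

theorem ar_Body : Ar S (fun c => Body H P R D c.Z (c.n 0) (c.n 1)) := by
  unfold Body
  infer_instance

/-- For a fixed set `Y` of the structure in place of `Z`. -/
theorem Ar.fixZ {Q : Ctx M → Prop} (h : Ar S Q) (Y : ↥S) : Ar S (fun c => Q ⟨c.n, Y.1⟩) :=
  Ar.substZ (T := fun _ => Y.1) (by infer_instance) h

instance ar_LftS (Y : ↥S) (f g k : Ctx M → M) [Tf f] [Tf g] [Tf k] :
    Ar S (fun c => Lft H P R D Y.1 (f c) (g c) (k c)) :=
  Ar.comp3 (R := fun a b d _ => Lft H P R D Y.1 a b d) (Ar.fixZ (ar_Lft0 H P R D) Y) f g k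

instance ar_InAS (Y : ↥S) (f g k : Ctx M → M) [Tf f] [Tf g] [Tf k] :
    Ar S (fun c => InA H P R D Y.1 (f c) (g c) (k c)) :=
  Ar.comp3 (R := fun a b d _ => InA H P R D Y.1 a b d) (Ar.fixZ (ar_InA0 H P R D) Y) f g k

instance ar_KAS (Y : ↥S) (f g k l : Ctx M → M) [Tf f] [Tf g] [Tf k] [Tf l] :
    Ar S (fun c => KA H P R D Y.1 (f c) (g c) (k c) (l c)) :=
  Ar.comp4 (R := fun a b d e _ => KA H P R D Y.1 a b d e) (Ar.fixZ (ar_KA0 H P R D) Y) f g k l

instance ar_KBS (Y : ↥S) (f g k l : Ctx M → M) [Tf f] [Tf g] [Tf k] [Tf l] :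
    Ar S (fun c => KB' H P R D Y.1 (f c) (g c) (k c) (l c)) :=
  Ar.comp4 (R := fun a b d e _ => KB' H P R D Y.1 a b d e) (Ar.fixZ (ar_KB0 H P R D) Y) f g k l

end ar

end Pool.Agent.Work.MP_4ee3e3_lc
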