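import Pool.Agent.Work.MP_4ee3e3_lc.Lists

/-!
# The tree of attempts to embed a linear order into a partial order
-/

set_option autoImplicit false
set_option linter.unusedSectionVars false

namespace Pool.Agent.Work.MP_4ee3e3_lc

universe u

variable {M : Type u} [CommSemiring M] [LinearOrder M] [IsStrictOrderedRing M] {S : Set (Set M)}

/-- strict order of a coded order -/
def PLt (R : ↥S) (x y : M) : Prop := pair x y ∈ R.1 ∧ x ≠ y

instance ar_PLt (R : ↥S) (f g : Ctx M → M) [Tf f] [Tf g] :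
    Ar S (fun c => PLt R (f c) (g c)) := by
  unfold PLt
  infer_instance

/-- the `i`-th entry of the list `σ` is `x` -/
def Ent (H : IsModelATR0 S) (σ i x : M) : Prop := ∃ ρ, Len H ρ i ∧ Ext H σ (cons x ρ)

instance ar_Ent (H : IsModelATR0 S) (f g k : Ctx M → M) [Tf f] [Tf g] [Tf k] :
    Ar S (fun c => Ent H (f c) (g c) (k c)) := by
  unfold Ent
  infer_instance

/-- `y` is a possible value at place `m`, given the entries of `σ` -/
def Gap (H : IsModelATR0 S) (P R D : ↥S) (σ m y : M) : Prop :=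
  y ∈ P.1 ∧ ∀ i x, Ent H σ i x → (pair i m ∈ D.1 → PLt R x y) ∧ (pair m i ∈ D.1 → PLt R y x)

instance ar_Gap (H : IsModelATR0 S) (P R D : ↥S) (f g k : Ctx M → M) [Tf f] [Tf g] [Tf k] :
    Ar S (fun c => Gap H P R D (f c) (g c) (k c)) := by
  unfold Gap
  infer_instance

/-- membership in the tree of attempts -/
def InT (H : IsModelATR0 S) (P R D : ↥S) (σ : M) : Prop :=
  (∃ n, Len H σ n) ∧ (∀ i x, Ent H σ i x → x ∈ P.1) ∧
    ∀ i x j y, Ent H σ i x → Ent H σ j y → pair i j ∈ D.1 → PLt R x y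

instance ar_InT (H : IsModelATR0 S) (P R D : ↥S) (f : Ctx M → M) [Tf f] :
    Ar S (fun c => InT H P R D (f c)) := by
  unfold InT
  infer_instance

variable (H : IsModelATR0 S)

theorem ent_unique {σ i x y : M} (h : Ent H σ i x) (h' : Ent H σ i y) : x = y := by
  obtain ⟨ρ, h1, h2⟩ := h
  obtain ⟨ρ', h1', h2'⟩ := h'
  have hl := len_cons H (x := x) h1
  have hl' := len_cons H (x := y) h1'
  rcases ext_total H _ _ _ h2 h2' with h | h
  · have := ext_len_eq H h hl hl'
    exact ((cons_inj H).1 this).1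
  · have := ext_len_eq H h hl' hl
    exact ((cons_inj H).1 this).1.symm

theorem ent_lt {σ i x n : M} (h : Ent H σ i x) (hn : Len H σ n) : i < n := by
  obtain ⟨ρ, h1, h2⟩ := h
  obtain ⟨m, hm, hl⟩ := len_ext H _ _ _ h2 hn
  have := len_unique H _ _ _ hl (len_cons H (x := x) h1)
  rw [this, H.succ_le_iff] at hm
  exact hm

theorem ent_ext {σ τ i x : M} (h : Ext H σ τ) (he : Ent H τ i x) : Ent H σ i x := by
  obtain ⟨ρ, h1, h2⟩ := he
  exact ⟨ρ, h1, ext_trans H _ _ _ h h2⟩

theorem ent_cons_iff {σ n x i y : M} (hn : Len H σ n) :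
    Ent H (cons x σ) i y ↔ Ent H σ i y ∨ (i = n ∧ y = x) := by
  constructor
  · rintro ⟨ρ, h1, h2⟩
    rw [ext_cons_iff, cons_inj H] at h2
    rcases h2 with ⟨rfl, rfl⟩ | h2
    · exact Or.inr ⟨len_unique H _ _ _ h1 hn, rfl⟩
    · exact Or.inl ⟨ρ, h1, h2⟩
  · rintro (h | ⟨rfl, rfl⟩)
    · exact ent_ext H (ext_cons H (ext_refl H σ)) h
    · exact ⟨σ, hn, ext_refl H _⟩

theorem ent_exists {σ n i : M} (hn : Len H σ n) (hi : i < n) : ∃ x, Ent H σ i x := by
  obtain ⟨τ, h1, h2⟩ := ext_of_len H σ n (i + 1) hn ((H.succ_le_iff _ _).2 hi)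
  rw [len_iff] at h2
  rcases h2 with ⟨-, h2⟩ | ⟨x, ρ, h3, m, h4, h5⟩
  · exact absurd h2 (H.succ_ne_zero i)
  · have := H.succ_inj _ _ h4
    subst this
    subst h3
    exact ⟨x, ρ, h5, h1⟩

theorem not_ent_nil {i x : M} : ¬ Ent H 0 i x := by
  intro h
  exact H.not_lt_zero i (ent_lt H h (len_zero H))

variable (P R D : ↥S)

/-- the tree as a set -/
def TT : ↥S := mk1 H (InT H P R D)

theorem mem_TT (σ : M) : σ ∈ (TT H P R D).1 ↔ InT H P R D σ := Iff.rfl

theorem TT_tree : IsTree H (TT H P R D) := by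
  constructor
  · intro σ h
    exact h.1
  · rintro σ τ ⟨⟨n, hn⟩, h2, h3⟩ hext
    obtain ⟨m, -, hm⟩ := len_ext H _ _ _ hext hn
    refine ⟨⟨m, hm⟩, ?_, ?_⟩
    · intro i x hx
      exact h2 i x (ent_ext H hext hx)
    · intro i x j y hx hy
      exact h3 i x j y (ent_ext H hext hx) (ent_ext H hext hy)

theorem nil_mem : InT H P R D 0 := by
  refine ⟨⟨0, len_zero H⟩, ?_, ?_⟩
  · intro i x h
    exact absurd h (not_ent_nil H)
  · intro i x j y h
    exact absurd h (not_ent_nil H)

theorem cons_mem_iff (hD : ∀ i, pair i i ∉ D.1) {σ n x : M} (hσ : InT H P R D σ)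
    (hn : Len H σ n) : InT H P R D (cons x σ) ↔ Gap H P R D σ n x := by
  constructor
  · rintro ⟨-, h2, h3⟩
    have hx : Ent H (cons x σ) n x := (ent_cons_iff H hn).2 (Or.inr ⟨rfl, rfl⟩)
    refine ⟨h2 n x hx, ?_⟩
    intro i y hy
    have hy' : Ent H (cons x σ) i y := (ent_cons_iff H hn).2 (Or.inl hy)
    exact ⟨fun h => h3 i y n x hy' hx h, fun h => h3 n x i y hx hy' h⟩
  · rintro ⟨h1, h2⟩
    refine ⟨⟨n + 1, len_cons H hn⟩, ?_, ?_⟩
    · intro i y hy
      rw [ent_cons_iff H hn] at hy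
      rcases hy with hy | ⟨rfl, rfl⟩
      · exact hσ.2.1 i y hy
      · exact h1
    · intro i y j z hy hz hij
      rw [ent_cons_iff H hn] at hy hz
      rcases hy with hy | ⟨rfl, rfl⟩
      · rcases hz with hz | ⟨rfl, rfl⟩
        · exact hσ.2.2 i y j z hy hz hij
        · exact (h2 i y hy).1 hij
      · rcases hz with hz | ⟨rfl, rfl⟩
        · exact (h2 j z hz).2 hij
        · exact absurd hij (hD _)

theorem gap_nil {m y : M} : Gap H P R D 0 m y ↔ y ∈ P.1 := by
  constructor
  · intro h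
    exact h.1
  · intro h
    exact ⟨h, fun i x hx => absurd hx (not_ent_nil H)⟩

theorem gap_cons {σ n x m y : M} (hn : Len H σ n) : Gap H P R D (cons x σ) m y ↔
    Gap H P R D σ m y ∧ (pair n m ∈ D.1 → PLt R x y) ∧ (pair m n ∈ D.1 → PLt R y x) := by
  constructor
  · rintro ⟨h1, h2⟩
    refine ⟨⟨h1, fun i z hz => h2 i z ((ent_cons_iff H hn).2 (Or.inl hz))⟩, ?_⟩
    exact h2 n x ((ent_cons_iff H hn).2 (Or.inr ⟨rfl, rfl⟩))
  · rintro ⟨⟨h1, h2⟩, h3⟩
    refine ⟨h1, fun i z hz => ?_⟩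
    rw [ent_cons_iff H hn] at hz
    rcases hz with hz | ⟨rfl, rfl⟩
    · exact h2 i z hz
    · exact h3

theorem PLt.trans (hPO : IsPO P.1 R.1) {x y z : M} (h : PLt R x y) (h' : PLt R y z) :
    PLt R x z := by
  refine ⟨hPO.2.2.1 _ _ _ h.1 h'.1, ?_⟩
  rintro rfl
  exact h.2 (hPO.2.2.2 _ _ h.1 h'.1)

theorem PLt.trans_le (hPO : IsPO P.1 R.1) {x y z : M} (h : PLt R x y) (h' : pair y z ∈ R.1) :
    PLt R x z := by
  refine ⟨hPO.2.2.1 _ _ _ h.1 h', ?_⟩
  rintro rfl
  exact h.2 (hPO.2.2.2 _ _ h.1 h')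

theorem PLt.le_trans (hPO : IsPO P.1 R.1) {x y z : M} (h : pair x y ∈ R.1) (h' : PLt R y z) :
    PLt R x z := by
  refine ⟨hPO.2.2.1 _ _ _ h h'.1, ?_⟩
  rintro rfl
  exact h'.2 (hPO.2.2.2 _ _ h'.1 h)

/-- `D` codes a strict linear order on its field -/
structure IsStrictLO (D : ↥S) : Prop where
  irrefl : ∀ i, pair i i ∉ D.1
  trans : ∀ i j k, pair i j ∈ D.1 → pair j k ∈ D.1 → pair i k ∈ D.1
  tri : ∀ i j k l, (pair i k ∈ D.1 ∨ pair k i ∈ D.1) → (pair j l ∈ D.1 ∨ pair l j ∈ D.1) →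
    pair i j ∈ D.1 ∨ i = j ∨ pair j i ∈ D.1

/-- Classification of the intervals of a child. -/
theorem classify (hPO : IsPO P.1 R.1) (hD : IsStrictLO D) {σ n x m : M} (hn : Len H σ n)
    (hx : Gap H P R D σ n x) (hm : n < m) :
    (∀ y, Gap H P R D (cons x σ) m y ↔ Gap H P R D σ m y) ∨
    (∀ y, Gap H P R D (cons x σ) m y ↔ Gap H P R D σ n y ∧ PLt R y x) ∨
    (∀ y, Gap H P R D (cons x σ) m y ↔ Gap H P R D σ n y ∧ PLt R x y) := by
  by_cases h1 : pair m n ∈ D.1
  · -- `m` is below `n`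
    have h1' : pair n m ∉ D.1 := fun h => hD.irrefl _ (hD.trans _ _ _ h h1)
    by_cases hsep : ∃ i z, Ent H σ i z ∧ pair m i ∈ D.1 ∧ pair i n ∈ D.1
    · left
      obtain ⟨i, z, hz, hmi, hin⟩ := hsep
      intro y
      rw [gap_cons H P R D hn]
      constructor
      · exact fun h => h.1
      · intro h
        refine ⟨h, fun h' => absurd h' h1', fun _ => ?_⟩
        exact PLt.trans P R hPO ((h.2 i z hz).2 hmi) ((hx.2 i z hz).1 hin)
    · right
      left
      push Not at hsep
      intro y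
      rw [gap_cons H P R D hn]
      constructor
      · rintro ⟨h, -, h2⟩
        have hyx := h2 h1
        refine ⟨⟨h.1, fun i z hz => ⟨fun hin => ?_, fun hni => ?_⟩⟩, hyx⟩
        · have hne : m ≠ i := by
            rintro rfl
            exact absurd (ent_lt H hz hn) (not_lt.2 hm.le)
          rcases hD.tri m i n n (Or.inl h1) (Or.inl hin) with h3 | h3 | h3
          · exact absurd hin (hsep i z hz h3)
          · exact absurd h3 hne
          · exact (h.2 i z hz).1 h3
        · exact PLt.trans P R hPO hyx ((hx.2 i z hz).2 hni)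
      · rintro ⟨h, hyx⟩
        refine ⟨⟨h.1, fun i z hz => ⟨fun him => ?_, fun hmi => ?_⟩⟩, fun h' => absurd h' h1',
          fun _ => hyx⟩
        · exact (h.2 i z hz).1 (hD.trans _ _ _ him h1)
        · have hne : n ≠ i := (ent_lt H hz hn).ne'
          rcases hD.tri n i m m (Or.inr h1) (Or.inr hmi) with h3 | h3 | h3
          · exact (h.2 i z hz).2 h3
          · exact absurd h3 hne
          · exact absurd h3 (hsep i z hz hmi)
  · by_cases h2 : pair n m ∈ D.1
    · by_cases hsep : ∃ i z, Ent H σ i z ∧ pair n i ∈ D.1 ∧ pair i m ∈ D.1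
      · left
        obtain ⟨i, z, hz, hni, him⟩ := hsep
        intro y
        rw [gap_cons H P R D hn]
        constructor
        · exact fun h => h.1
        · intro h
          refine ⟨h, fun _ => ?_, fun h' => absurd h' h1⟩
          exact PLt.trans P R hPO ((hx.2 i z hz).2 hni) ((h.2 i z hz).1 him)
      · right
        right
        push Not at hsep
        intro y
        rw [gap_cons H P R D hn]
        constructor
        · rintro ⟨h, h3, -⟩
          have hxy := h3 h2
          refine ⟨⟨h.1, fun i z hz => ⟨fun hin => ?_, fun hni => ?_⟩⟩, hxy⟩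
          · exact PLt.trans P R hPO ((hx.2 i z hz).1 hin) hxy
          · have hne : m ≠ i := by
              rintro rfl
              exact absurd (ent_lt H hz hn) (not_lt.2 hm.le)
            rcases hD.tri m i n n (Or.inr h2) (Or.inr hni) with h4 | h4 | h4
            · exact (h.2 i z hz).2 h4
            · exact absurd h4 hne
            · exact absurd h4 (hsep i z hz hni)
        · rintro ⟨h, hxy⟩
          refine ⟨⟨h.1, fun i z hz => ⟨fun him => ?_, fun hmi => ?_⟩⟩, fun _ => hxy,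
            fun h' => absurd h' h1⟩
          · have hne : n ≠ i := (ent_lt H hz hn).ne'
            rcases hD.tri n i m m (Or.inl h2) (Or.inl him) with h4 | h4 | h4
            · exact absurd him (hsep i z hz h4)
            · exact absurd h4 hne
            · exact (h.2 i z hz).1 h4
          · exact (h.2 i z hz).2 (hD.trans _ _ _ h2 hmi)
    · left
      intro y
      rw [gap_cons H P R D hn]
      constructor
      · exact fun h => h.1
      · intro h
        exact ⟨h, fun h' => absurd h' h2, fun h' => absurd h' h1⟩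

end Pool.Agent.Work.MP_4ee3e3_lc
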